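import Mathlib
import Pool.Agent.Helper65.RatComp

/-!
Definitions of special rational functions (shared by the modules of MP_9c370f).
-/

open Set Filter Topology

namespace Pool.Agent.Helper65

/-- The Möbius group is the set of rational functions of degree one. -/
def MobConj (A B : RatFunc ℂ) : Prop := ∃ M : RatFunc ℂ, deg M = 1 ∧ comp M A = comp B M

/-- Lattès maps (Milnor's definition). -/
def IsLattes (A : RatFunc ℂ) : Prop :=
  ∃ (Λ : AddSubgroup ℂ) (Θ : ℂ → ℂ) (α β : ℂ),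
    DiscreteTopology Λ ∧ Submodule.span ℝ (Λ : Set ℂ) = ⊤ ∧ (∀ ω ∈ Λ, α * ω ∈ Λ) ∧
    MeromorphicOn Θ univ ∧ (¬ ∃ c : ℂ, ∀ᶠ z in codiscrete ℂ, Θ z = c) ∧
    (∀ ω ∈ Λ, ∀ᶠ z in codiscrete ℂ, Θ (z + ω) = Θ z) ∧
    ∀ᶠ z in codiscrete ℂ, RatFunc.eval (RingHom.id ℂ) (Θ z) A = Θ (α * z + β)

/-- Chebyshev polynomial as a rational function. -/
noncomputable def chebT (n : ℕ) : RatFunc ℂ :=
  algebraMap (Polynomial ℂ) (RatFunc ℂ) (Polynomial.Chebyshev.T ℂ n)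

/-- Special rational functions. -/
def Special (A : RatFunc ℂ) : Prop :=
  IsLattes A ∨ ∃ n : ℕ, 2 ≤ n ∧ (MobConj A (RatFunc.X ^ n) ∨ MobConj A (1 / RatFunc.X ^ n) ∨
    MobConj A (chebT n) ∨ MobConj A (- chebT n))

end Pool.Agent.Helper65
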