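import Mathlib
import Pool.Agent.Helper65.RatVal
import Pool.Agent.Helper60.RF.SpecDef

/-!
Algebraic end of the classification of special rational functions.
-/

open Polynomial

namespace Pool.Agent.Helper65

/-! ### composition as field operations -/

lemma comp_add {B : RatFunc ℂ} (h : NC B) (A A' : RatFunc ℂ) :
    comp (A + A') B = comp A B + comp A' B := by
  rw [← phi_apply B h, ← phi_apply B h, ← phi_apply B h, map_add]

lemma comp_mul {B : RatFunc ℂ} (h : NC B) (A A' : RatFunc ℂ) :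
    comp (A * A') B = comp A B * comp A' B := by
  rw [← phi_apply B h, ← phi_apply B h, ← phi_apply B h, map_mul]

lemma comp_div {B : RatFunc ℂ} (h : NC B) (A A' : RatFunc ℂ) :
    comp (A / A') B = comp A B / comp A' B := by
  rw [← phi_apply B h, ← phi_apply B h, ← phi_apply B h, map_div₀]

lemma comp_neg {B : RatFunc ℂ} (h : NC B) (A : RatFunc ℂ) :
    comp (-A) B = - comp A B := by
  rw [← phi_apply B h, ← phi_apply B h, map_neg]

lemma comp_pow {B : RatFunc ℂ} (h : NC B) (A : RatFunc ℂ) (n : ℕ) :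
    comp (A ^ n) B = (comp A B) ^ n := by
  rw [← phi_apply B h, ← phi_apply B h, map_pow]

lemma comp_zpow {B : RatFunc ℂ} (h : NC B) (A : RatFunc ℂ) (n : ℤ) :
    comp (A ^ n) B = (comp A B) ^ n := by
  rw [← phi_apply B h, ← phi_apply B h, map_zpow₀]

lemma comp_C (c : ℂ) (B : RatFunc ℂ) : comp (RatFunc.C c) B = RatFunc.C c := by
  simp [comp]

lemma comp_one (B : RatFunc ℂ) : comp 1 B = 1 := by
  simp [comp]

lemma comp_algebraMap {B : RatFunc ℂ} (h : NC B) (P : ℂ[X]) :
    comp (algebraMap ℂ[X] (RatFunc ℂ) P) B = P.eval₂ RatFunc.C B := by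
  rw [← phi_apply B h, phi_poly]

lemma deg_algebraMap (P : ℂ[X]) : deg (algebraMap ℂ[X] (RatFunc ℂ) P) = P.natDegree := by
  simp [deg]

lemma deg_X : deg RatFunc.X = 1 := by simp [deg]

/-! ### Möbius functions -/

/-- Möbius function -/
noncomputable def mob (a b c d : ℂ) : RatFunc ℂ :=
  (RatFunc.C a * RatFunc.X + RatFunc.C b) / (RatFunc.C c * RatFunc.X + RatFunc.C d)

lemma lin_eq (a b : ℂ) : (RatFunc.C a * RatFunc.X + RatFunc.C b : RatFunc ℂ) =
    algebraMap ℂ[X] (RatFunc ℂ) (Polynomial.C a * Polynomial.X + Polynomial.C b) := by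
  simp

lemma lin_ne_zero_mob {a b : ℂ} (h : a ≠ 0 ∨ b ≠ 0) :
    (RatFunc.C a * RatFunc.X + RatFunc.C b : RatFunc ℂ) ≠ 0 := by
  rw [lin_eq]
  apply amap_ne_zero
  intro h0
  have h1 := congrArg (fun p => coeff p 1) h0
  have h2 := congrArg (fun p => coeff p 0) h0
  simp at h1 h2
  rcases h with h | h
  · exact h h1
  · exact h h2

lemma nc_mob {a b c d : ℂ} (h : a * d - b * c ≠ 0) : NC (mob a b c d) := by
  rintro ⟨k, hk⟩
  have hcd : c ≠ 0 ∨ d ≠ 0 := by
    by_contra hcon
    push Not at hcon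
    rw [hcon.1, hcon.2] at h
    simp at h
  rw [mob, div_eq_iff (lin_ne_zero_mob hcd)] at hk
  have h3 : algebraMap ℂ[X] (RatFunc ℂ) (Polynomial.C a * Polynomial.X + Polynomial.C b) =
      algebraMap ℂ[X] (RatFunc ℂ) (Polynomial.C k * (Polynomial.C c * Polynomial.X + Polynomial.C d)) := by
    rw [map_mul, ← lin_eq, ← lin_eq, hk]
    simp
  have h4 := RatFunc.algebraMap_injective ℂ h3
  have h1 := congrArg (fun p => coeff p 1) h4
  have h2 := congrArg (fun p => coeff p 0) h4
  simp at h1 h2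
  apply h
  rw [h1, h2]
  ring

lemma comp_mob {a b c d : ℂ} {B : RatFunc ℂ} (hB : NC B) :
    comp (mob a b c d) B = (RatFunc.C a * B + RatFunc.C b) / (RatFunc.C c * B + RatFunc.C d) := by
  rw [mob, comp_div hB, comp_add hB, comp_add hB, comp_mul hB, comp_mul hB, comp_C, comp_C, comp_C,
    comp_C, X_comp]

lemma mob_field {K : Type*} [Field K] (a b c d x : K) (h1 : c * x + d ≠ 0)
    (hdet : a * d - b * c ≠ 0) :
    (d * ((a * x + b) / (c * x + d)) + -b) / (-c * ((a * x + b) / (c * x + d)) + a) = x := by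
  have e1 : -c * ((a * x + b) / (c * x + d)) + a = (a * d - b * c) / (c * x + d) := by
    rw [eq_div_iff h1, add_mul, mul_assoc, div_mul_cancel₀ _ h1]; ring
  have e2 : d * ((a * x + b) / (c * x + d)) + -b = (a * d - b * c) * x / (c * x + d) := by
    rw [eq_div_iff h1, add_mul, mul_assoc, div_mul_cancel₀ _ h1]; ring
  rw [e1, e2, div_div_div_cancel_right₀ h1, mul_div_assoc, mul_comm, div_mul_cancel₀ _ hdet]

lemma mob_inv {a b c d : ℂ} (h : a * d - b * c ≠ 0) :
    comp (mob d (-b) (-c) a) (mob a b c d) = RatFunc.X := by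
  rw [comp_mob (nc_mob h)]
  have hcd : c ≠ 0 ∨ d ≠ 0 := by
    by_contra hcon
    push Not at hcon
    rw [hcon.1, hcon.2] at h
    simp at h
  have h1 := lin_ne_zero_mob hcd
  have hdet : (RatFunc.C (a * d - b * c) : RatFunc ℂ) ≠ 0 := by
    intro h0
    apply h
    exact (map_eq_zero _).1 h0
  simp only [map_sub, map_mul] at hdet
  rw [mob, map_neg, map_neg]
  exact mob_field _ _ _ _ _ h1 hdet

lemma deg_mob {a b c d : ℂ} (h : a * d - b * c ≠ 0) : deg (mob a b c d) = 1 := by
  have h1 := deg_comp (A := mob d (-b) (-c) a) (nc_mob h)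
  rw [mob_inv h, deg_X] at h1
  exact Nat.eq_one_of_mul_eq_one_left h1.symm

lemma exists_mob {F : RatFunc ℂ} (h : deg F = 1) :
    ∃ a b c d : ℂ, a * d - b * c ≠ 0 ∧ F = mob a b c d := by
  have hn : F.num.natDegree ≤ 1 := by rw [← h]; exact le_max_left _ _
  have hd : F.denom.natDegree ≤ 1 := by rw [← h]; exact le_max_right _ _
  have e1 := Polynomial.eq_X_add_C_of_natDegree_le_one hn
  have e2 := Polynomial.eq_X_add_C_of_natDegree_le_one hd
  set a := F.num.coeff 1
  set b := F.num.coeff 0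
  set c := F.denom.coeff 1
  set d := F.denom.coeff 0
  have hF : F = mob a b c d := by
    conv_lhs => rw [← RatFunc.num_div_denom F, e1, e2]
    rw [← lin_eq, ← lin_eq, mob]
  refine ⟨a, b, c, d, ?_, hF⟩
  intro h0
  obtain ⟨u, v, huv⟩ := RatFunc.isCoprime_num_denom F
  have k1 : Polynomial.C d * F.num = Polynomial.C b * F.denom := by
    rw [e1, e2]
    have : Polynomial.C a * Polynomial.C d = Polynomial.C b * Polynomial.C c := by
      rw [← Polynomial.C_mul, ← Polynomial.C_mul]; congr 1; linear_combination h0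
    linear_combination Polynomial.X * this
  have k2 : Polynomial.C c * F.num = Polynomial.C a * F.denom := by
    rw [e1, e2]
    have : Polynomial.C a * Polynomial.C d = Polynomial.C b * Polynomial.C c := by
      rw [← Polynomial.C_mul, ← Polynomial.C_mul]; congr 1; linear_combination h0
    linear_combination - this
  -- F is constant
  have hNC : NC F := nc_of_deg h.ge
  apply hNC
  have hdF := amap_ne_zero F.denom_ne_zero
  by_cases hc : c = 0
  · have hd0 : d ≠ 0 := by
      intro hd0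
      apply F.denom_ne_zero
      rw [e2, hc, hd0]
      simp
    refine ⟨b / d, ?_⟩
    conv_lhs => rw [← RatFunc.num_div_denom F]
    rw [div_eq_iff hdF]
    have := congrArg (algebraMap ℂ[X] (RatFunc ℂ)) k1
    simp only [map_mul, RatFunc.algebraMap_C] at this
    have hd1 : (RatFunc.C d : RatFunc ℂ) ≠ 0 := (_root_.map_ne_zero _).2 hd0
    rw [map_div₀]
    field_simp
    linear_combination this
  · refine ⟨a / c, ?_⟩
    conv_lhs => rw [← RatFunc.num_div_denom F]
    rw [div_eq_iff hdF]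
    have := congrArg (algebraMap ℂ[X] (RatFunc ℂ)) k2
    simp only [map_mul, RatFunc.algebraMap_C] at this
    have hc1 : (RatFunc.C c : RatFunc ℂ) ≠ 0 := (_root_.map_ne_zero _).2 hc
    rw [map_div₀]
    field_simp
    linear_combination this

/-- Inverse of a Möbius function. -/
lemma exists_mobInv {F : RatFunc ℂ} (h : deg F = 1) :
    ∃ G : RatFunc ℂ, deg G = 1 ∧ comp G F = RatFunc.X ∧ comp F G = RatFunc.X := by
  obtain ⟨a, b, c, d, hdet, rfl⟩ := exists_mob h
  have hdet' : d * a - (-b) * (-c) ≠ 0 := by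
    intro h0; apply hdet; linear_combination h0
  refine ⟨mob d (-b) (-c) a, deg_mob hdet', mob_inv hdet, ?_⟩
  have := mob_inv hdet'
  simpa using this

/-- Transport of a semiconjugacy. -/
lemma mobConj_of {A F E L T : RatFunc ℂ} (hA : NC A) (hE : NC E) (hF : deg F = 1)
    (h : comp A F = comp F E) (hL : deg L = 1) (hLE : comp L E = comp T L) : MobConj A T := by
  obtain ⟨G, hG, hGF, hFG⟩ := exists_mobInv hF
  have nF : NC F := nc_of_deg hF.ge
  have nG : NC G := nc_of_deg hG.ge
  have nL : NC L := nc_of_deg hL.ge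
  refine ⟨comp L G, by rw [deg_comp nG, hL, hG], ?_⟩
  apply comp_injective nF
  rw [comp_assoc _ hA nF, h, ← comp_assoc _ nF hE, comp_assoc L nG nF, hGF, comp_X, hLE,
    comp_assoc T (nc_comp nL nG) nF, comp_assoc L nG nF, hGF, comp_X]

lemma not_par {F : RatFunc ℂ} (hF : NC F) {u v : ℂ}
    (h : Polynomial.C u * F.num = Polynomial.C v * F.denom) : u = 0 ∧ v = 0 := by
  have hu : u = 0 := by
    by_contra hu
    apply hF
    refine ⟨v / u, ?_⟩
    have hdF := amap_ne_zero F.denom_ne_zero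
    conv_lhs => rw [← RatFunc.num_div_denom F]
    rw [div_eq_iff hdF]
    have := congrArg (algebraMap ℂ[X] (RatFunc ℂ)) h
    simp only [map_mul, RatFunc.algebraMap_C] at this
    have hc1 : (RatFunc.C u : RatFunc ℂ) ≠ 0 := (_root_.map_ne_zero _).2 hu
    rw [map_div₀]
    field_simp
    linear_combination this
  refine ⟨hu, ?_⟩
  rw [hu] at h
  simp only [Polynomial.C_0, zero_mul] at h
  have := (mul_eq_zero.1 h.symm).resolve_right F.denom_ne_zero
  exact Polynomial.C_eq_zero.1 this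

/-! ### The Joukowski function -/

/-- `1/X` -/
noncomputable def Jinv : RatFunc ℂ := mob 0 1 1 0

lemma Jinv_eq : Jinv = 1 / RatFunc.X := by
  simp [Jinv, mob]

lemma nc_Jinv : NC Jinv := nc_mob (by norm_num)

/-- `X + 1/X` -/
noncomputable def Jou : RatFunc ℂ := RatFunc.X + 1 / RatFunc.X

lemma X_ne : (RatFunc.X : RatFunc ℂ) ≠ 0 := RatFunc.X_ne_zero

lemma nc_Jou : NC Jou := by
  rintro ⟨k, hk⟩
  have h1 : (RatFunc.X : RatFunc ℂ) ^ 2 + 1 = RatFunc.C k * RatFunc.X := by
    rw [← hk, Jou]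
    have := X_ne
    field_simp
  have h2 : algebraMap ℂ[X] (RatFunc ℂ) (Polynomial.X ^ 2 + 1) =
      algebraMap ℂ[X] (RatFunc ℂ) (Polynomial.C k * Polynomial.X) := by
    simpa using h1
  have h3 := congrArg (fun p => Polynomial.eval 0 p) (RatFunc.algebraMap_injective ℂ h2)
  simp at h3

lemma quad_eq {P : ℂ[X]} (h : P.natDegree ≤ 2) :
    P = Polynomial.C (P.coeff 2) * Polynomial.X ^ 2 + Polynomial.C (P.coeff 1) * Polynomial.X +
      Polynomial.C (P.coeff 0) := by
  conv_lhs => rw [P.as_sum_range' 3 (by omega)]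
  simp only [Finset.sum_range_succ, Finset.sum_range_zero, zero_add, ← Polynomial.C_mul_X_pow_eq_monomial]
  simp only [pow_zero, mul_one, pow_one]
  ring

lemma exists_mob_Jou {F : RatFunc ℂ} (h : deg F = 2) (hsym : comp F Jinv = F) :
    ∃ M : RatFunc ℂ, deg M = 1 ∧ F = comp M Jou := by
  have hNC : NC F := nc_of_deg (by omega)
  have hn : F.num.natDegree ≤ 2 := by rw [← h]; exact le_max_left _ _
  have hd : F.denom.natDegree ≤ 2 := by rw [← h]; exact le_max_right _ _
  have e1 := quad_eq hn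
  have e2 := quad_eq hd
  set a2 := F.num.coeff 2
  set a1 := F.num.coeff 1
  set a0 := F.num.coeff 0
  set b2 := F.denom.coeff 2
  set b1 := F.denom.coeff 1
  set b0 := F.denom.coeff 0
  have hdF := amap_ne_zero F.denom_ne_zero
  have hX := X_ne
  have hcomp : comp F Jinv = F.num.eval₂ RatFunc.C Jinv / F.denom.eval₂ RatFunc.C Jinv := rfl
  have hden : F.denom.eval₂ RatFunc.C Jinv ≠ 0 := by
    rw [← phi_poly Jinv nc_Jinv]
    intro h0
    exact hdF ((map_eq_zero (phi Jinv nc_Jinv)).1 h0)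
  have hFe : F = algebraMap ℂ[X] (RatFunc ℂ) F.num / algebraMap ℂ[X] (RatFunc ℂ) F.denom :=
    (RatFunc.num_div_denom F).symm
  have h1 : F.num.eval₂ RatFunc.C Jinv * algebraMap ℂ[X] (RatFunc ℂ) F.denom =
      algebraMap ℂ[X] (RatFunc ℂ) F.num * F.denom.eval₂ RatFunc.C Jinv := by
    have : F.num.eval₂ RatFunc.C Jinv / F.denom.eval₂ RatFunc.C Jinv =
      algebraMap ℂ[X] (RatFunc ℂ) F.num / algebraMap ℂ[X] (RatFunc ℂ) F.denom := by
      rw [← hcomp, hsym, ← hFe]
    rwa [div_eq_div_iff hden hdF] at this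
  have hnumJ : F.num.eval₂ RatFunc.C Jinv * RatFunc.X ^ 2 =
      algebraMap ℂ[X] (RatFunc ℂ) (Polynomial.C a0 * Polynomial.X ^ 2 + Polynomial.C a1 * Polynomial.X +
        Polynomial.C a2) := by
    rw [e1, Jinv_eq]
    simp only [eval₂_add, eval₂_mul, eval₂_C, eval₂_pow, eval₂_X, map_add, map_mul, map_pow,
      RatFunc.algebraMap_C, RatFunc.algebraMap_X]
    field_simp
    ring
  have hdenJ : F.denom.eval₂ RatFunc.C Jinv * RatFunc.X ^ 2 =
      algebraMap ℂ[X] (RatFunc ℂ) (Polynomial.C b0 * Polynomial.X ^ 2 + Polynomial.C b1 * Polynomial.X +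
        Polynomial.C b2) := by
    rw [e2, Jinv_eq]
    simp only [eval₂_add, eval₂_mul, eval₂_C, eval₂_pow, eval₂_X, map_add, map_mul, map_pow,
      RatFunc.algebraMap_C, RatFunc.algebraMap_X]
    field_simp
    ring
  have h2 : (Polynomial.C a0 * Polynomial.X ^ 2 + Polynomial.C a1 * Polynomial.X + Polynomial.C a2)
      * F.denom = F.num * (Polynomial.C b0 * Polynomial.X ^ 2 + Polynomial.C b1 * Polynomial.X +
        Polynomial.C b2) := by
    apply RatFunc.algebraMap_injective ℂ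
    rw [map_mul, map_mul, ← hnumJ, ← hdenJ]
    linear_combination RatFunc.X ^ 2 * h1
  rw [e1, e2] at h2
  have k0 := congrArg (fun p => Polynomial.eval 0 p) h2
  have k2 := congrArg (fun p => Polynomial.eval 2 p) h2
  simp only [eval_mul, eval_add, eval_C, eval_X, eval_pow] at k0 k2
  have E0 : a2 * b0 = a0 * b2 := by linear_combination k0
  have E1 : a2 * b1 + a1 * b0 = a0 * b1 + a1 * b2 := by
    linear_combination (-1/6) * k2 - (15/6) * E0
  have hpar : Polynomial.C (b0 - b2) * F.num = Polynomial.C (a0 - a2) * F.denom := by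
    rw [e1, e2]
    have c2 : Polynomial.C (b0 - b2) * Polynomial.C a2 = Polynomial.C (a0 - a2) * Polynomial.C b2 := by
      rw [← Polynomial.C_mul, ← Polynomial.C_mul]; congr 1; linear_combination E0
    have c1 : Polynomial.C (b0 - b2) * Polynomial.C a1 = Polynomial.C (a0 - a2) * Polynomial.C b1 := by
      rw [← Polynomial.C_mul, ← Polynomial.C_mul]; congr 1; linear_combination E1
    have c0 : Polynomial.C (b0 - b2) * Polynomial.C a0 = Polynomial.C (a0 - a2) * Polynomial.C b0 := by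
      rw [← Polynomial.C_mul, ← Polynomial.C_mul]; congr 1; linear_combination E0
    linear_combination c2 * Polynomial.X ^ 2 + c1 * Polynomial.X + c0
  obtain ⟨hb, ha⟩ := not_par hNC hpar
  have hb : b0 = b2 := sub_eq_zero.1 hb
  have ha : a0 = a2 := sub_eq_zero.1 ha
  rw [ha] at e1
  rw [hb] at e2
  have hdet : a2 * b1 - a1 * b2 ≠ 0 := by
    intro h0
    have hp1 : Polynomial.C b2 * F.num = Polynomial.C a2 * F.denom := by
      rw [e1, e2]
      have : Polynomial.C b2 * Polynomial.C a1 = Polynomial.C a2 * Polynomial.C b1 := by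
        rw [← Polynomial.C_mul, ← Polynomial.C_mul]; congr 1; linear_combination -h0
      linear_combination Polynomial.X * this
    have hp2 : Polynomial.C b1 * F.num = Polynomial.C a1 * F.denom := by
      rw [e1, e2]
      have : Polynomial.C b2 * Polynomial.C a1 = Polynomial.C a2 * Polynomial.C b1 := by
        rw [← Polynomial.C_mul, ← Polynomial.C_mul]; congr 1; linear_combination -h0
      linear_combination -(Polynomial.X ^ 2 + 1) * this
    obtain ⟨q1, -⟩ := not_par hNC hp1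
    obtain ⟨q2, -⟩ := not_par hNC hp2
    apply F.denom_ne_zero
    rw [e2, q1, q2]
    simp
  refine ⟨mob a2 a1 b2 b1, deg_mob hdet, ?_⟩
  rw [comp_mob nc_Jou]
  conv_lhs => rw [hFe, e1, e2]
  have hdY : RatFunc.C b2 * Jou + RatFunc.C b1 ≠ 0 := by
    intro h0
    apply hdF
    rw [e2]
    simp only [map_add, map_mul, map_pow, RatFunc.algebraMap_C, RatFunc.algebraMap_X]
    rw [Jou] at h0
    have : RatFunc.X * (RatFunc.C b2 * (RatFunc.X + 1 / RatFunc.X) + RatFunc.C b1) = 0 := by
      rw [h0, mul_zero]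
    rw [← this]
    field_simp
    ring
  rw [e2] at hdF
  rw [div_eq_div_iff hdF hdY, Jou]
  simp only [map_add, map_mul, map_pow, RatFunc.algebraMap_C, RatFunc.algebraMap_X]
  field_simp
  ring

/-! ### Chebyshev polynomials -/

lemma pow_add_inv_pow {K : Type*} [Field K] (x : K) (hx : x ≠ 0) (n : ℕ) :
    x ^ (n + 2) + 1 / x ^ (n + 2) = (x + 1 / x) * (x ^ (n + 1) + 1 / x ^ (n + 1)) -
      (x ^ n + 1 / x ^ n) := by
  field_simp
  ring

lemma cheb_Jou (n : ℕ) : (Polynomial.Chebyshev.T ℂ n).eval₂ RatFunc.C (RatFunc.C (1/2) * Jou) =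
    RatFunc.C (1/2) * (RatFunc.X ^ n + 1 / RatFunc.X ^ n) := by
  induction n using Nat.twoStepInduction with
  | zero =>
    simp only [Nat.cast_zero, Polynomial.Chebyshev.T_zero, eval₂_one, pow_zero, one_div_one]
    have : (1 : RatFunc ℂ) + 1 = RatFunc.C 2 := by
      rw [map_ofNat]; norm_num
    rw [this, ← map_mul]
    norm_num
  | one =>
    simp only [Nat.cast_one, Polynomial.Chebyshev.T_one, eval₂_X, pow_one]
    rfl
  | more n ih1 ih2 =>
    have e : ((n + 2 : ℕ) : ℤ) = (n : ℤ) + 2 := by push_cast; ring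
    have e' : ((n + 1 : ℕ) : ℤ) = (n : ℤ) + 1 := by push_cast; ring
    rw [e, Polynomial.Chebyshev.T_add_two, eval₂_sub, eval₂_mul, eval₂_mul, eval₂_X, ← e', ih1, ih2,
      pow_add_inv_pow _ X_ne, Jou]
    have h2 : (2 : ℂ[X]).eval₂ RatFunc.C (RatFunc.C (1/2) * (RatFunc.X + 1 / RatFunc.X) : RatFunc ℂ) *
        RatFunc.C (1/2) = 1 := by
      rw [show (2 : ℂ[X]) = Polynomial.C 2 from rfl, eval₂_C, ← map_mul]
      norm_num
    linear_combination (RatFunc.X + 1 / RatFunc.X) * RatFunc.C (1/2) * (RatFunc.X ^ (n+1) +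
      1 / RatFunc.X ^ (n+1)) * h2

/-! ### Monomials -/

/-- Laurent monomial -/
noncomputable def mon (c : ℂ) (n : ℤ) : RatFunc ℂ := RatFunc.C c * RatFunc.X ^ n

lemma deg_mon_nat {c : ℂ} (hc : c ≠ 0) (n : ℕ) : deg (mon c n) = n := by
  have : mon c n = algebraMap ℂ[X] (RatFunc ℂ) (Polynomial.C c * Polynomial.X ^ n) := by
    simp [mon]
  rw [this, deg_algebraMap, natDegree_C_mul_X_pow _ _ hc]

lemma nc_mon_nat {c : ℂ} (hc : c ≠ 0) {n : ℕ} (hn : 1 ≤ n) : NC (mon c n) :=
  nc_of_deg (by rw [deg_mon_nat hc]; exact hn)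

lemma mon_neg {c : ℂ} {n : ℕ} (hn : 1 ≤ n) : mon c (-n) = comp (mob 0 c 1 0) (mon 1 n) := by
  have hN := nc_mon_nat one_ne_zero hn
  rw [comp_mob hN]
  simp only [mon, map_zero, zero_mul, map_one, one_mul, zero_add, add_zero, zpow_neg, zpow_natCast]
  rw [div_eq_mul_inv]

lemma deg_mon {c : ℂ} (hc : c ≠ 0) (n : ℤ) : deg (mon c n) = n.natAbs := by
  obtain ⟨m, rfl | rfl⟩ := n.eq_nat_or_neg
  · rw [deg_mon_nat hc]; simp
  · by_cases hm : m = 0
    · subst hm; simp only [Nat.cast_zero, neg_zero, Int.natAbs_zero]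
      exact deg_mon_nat hc 0
    · have hm1 : 1 ≤ m := by omega
      rw [mon_neg hm1, deg_comp (nc_mon_nat one_ne_zero hm1), deg_mob, deg_mon_nat one_ne_zero]
      · simp
      · simpa using hc

lemma comp_const (F : RatFunc ℂ) (c : ℂ) : ∃ k, comp F (RatFunc.C c) = RatFunc.C k := by
  refine ⟨F.num.eval c / F.denom.eval c, ?_⟩
  show F.num.eval₂ RatFunc.C (RatFunc.C c) / F.denom.eval₂ RatFunc.C (RatFunc.C c) = _
  rw [eval₂_at_apply, eval₂_at_apply, map_div₀]

lemma natAbs_ge {A F : RatFunc ℂ} (hA : 2 ≤ deg A) (hF : 1 ≤ deg F) {c : ℂ} (hc : c ≠ 0) {n : ℤ}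
    (h : comp A F = comp F (mon c n)) : 2 ≤ n.natAbs := by
  have nF := nc_of_deg hF
  have nA : NC A := nc_of_deg (le_trans one_le_two hA)
  by_cases h0 : n = 0
  · exfalso
    have h1 : NC (comp A F) := nc_comp nA nF
    rw [h, h0] at h1
    apply h1
    have : mon c 0 = RatFunc.C c := by simp [mon]
    rw [this]
    exact comp_const F c
  · have hE : NC (mon c n) := nc_of_deg (by rw [deg_mon hc]; omega)
    have h2 := congrArg deg h
    rw [deg_comp nF, deg_comp hE, deg_mon hc] at h2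
    nlinarith

/-- scaling by `a` -/
noncomputable def scl (a : ℂ) : RatFunc ℂ := mob a 0 0 1

lemma scl_eq (a : ℂ) : scl a = RatFunc.C a * RatFunc.X := by
  simp [scl, mob]

lemma deg_scl {a : ℂ} (ha : a ≠ 0) : deg (scl a) = 1 := deg_mob (by simpa using ha)

lemma nc_scl {a : ℂ} (ha : a ≠ 0) : NC (scl a) := nc_of_deg (by rw [deg_scl ha])

lemma scl_comp (a : ℂ) {B : RatFunc ℂ} (hB : NC B) : comp (scl a) B = RatFunc.C a * B := by
  rw [scl_eq, comp_mul hB, comp_C, X_comp]

lemma mon_comp (c : ℂ) (n : ℤ) {B : RatFunc ℂ} (hB : NC B) :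
    comp (mon c n) B = RatFunc.C c * B ^ n := by
  rw [mon, comp_mul hB, comp_C, comp_zpow hB, X_comp]

lemma exists_scale {c : ℂ} (hc : c ≠ 0) {n : ℤ} (hn : 2 ≤ n.natAbs) :
    ∃ a : ℂ, a ≠ 0 ∧ a * c = a ^ n := by
  obtain ⟨m, rfl | rfl⟩ := n.eq_nat_or_neg
  · have hm : 2 ≤ m := by simpa using hn
    obtain ⟨a, ha⟩ := IsAlgClosed.exists_pow_nat_eq c (n := m - 1) (by omega)
    have ha0 : a ≠ 0 := by
      rintro rfl
      rw [zero_pow (by omega)] at ha
      exact hc ha.symm
    refine ⟨a, ha0, ?_⟩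
    rw [zpow_natCast, ← ha, ← pow_succ']
    congr 1; omega
  · have hm : 2 ≤ m := by simpa using hn
    obtain ⟨a, ha⟩ := IsAlgClosed.exists_pow_nat_eq c⁻¹ (n := m + 1) (by omega)
    have ha0 : a ≠ 0 := by
      rintro rfl
      rw [zero_pow (by omega)] at ha
      exact inv_ne_zero hc ha.symm
    refine ⟨a, ha0, ?_⟩
    rw [zpow_neg, zpow_natCast, eq_comm, inv_eq_one_div, div_eq_iff (pow_ne_zero _ ha0)]
    have : a * c * a ^ m = a ^ (m + 1) * c := by ring
    rw [this, ha, inv_mul_cancel₀ hc]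

lemma zpow_eq_or (n : ℤ) : (RatFunc.X : RatFunc ℂ) ^ n = RatFunc.X ^ n.natAbs ∨
    (RatFunc.X : RatFunc ℂ) ^ n = 1 / RatFunc.X ^ n.natAbs := by
  obtain ⟨m, rfl | rfl⟩ := n.eq_nat_or_neg
  · left; simp
  · right; simp

lemma zpow_add_neg (n : ℤ) : (RatFunc.X : RatFunc ℂ) ^ n + (RatFunc.X ^ n)⁻¹ =
    RatFunc.X ^ n.natAbs + 1 / RatFunc.X ^ n.natAbs := by
  obtain ⟨m, rfl | rfl⟩ := n.eq_nat_or_neg
  · simp
  · simp [add_comm]

/-- Algebraic end of the classification. -/
theorem special_of_semiconj {A F : RatFunc ℂ} (hA : 2 ≤ deg A)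
    (hF : deg F = 1 ∨ (deg F = 2 ∧ ∃ κ : ℂ, κ ≠ 0 ∧ comp F (RatFunc.C κ / RatFunc.X) = F))
    {c : ℂ} (hc : c ≠ 0) {n : ℤ}
    (h : comp A F = comp F (RatFunc.C c * RatFunc.X ^ n)) : Special A := by
  change comp A F = comp F (mon c n) at h
  have hF1 : 1 ≤ deg F := by rcases hF with h | ⟨h, -⟩ <;> omega
  have hn := natAbs_ge hA hF1 hc h
  have nF : NC F := nc_of_deg hF1
  have nA : NC A := nc_of_deg (le_trans one_le_two hA)
  have nE : NC (mon c n) := nc_of_deg (by rw [deg_mon hc]; omega)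
  right
  refine ⟨n.natAbs, hn, ?_⟩
  rcases hF with hF1 | ⟨hF2, κ, hκ, hsym⟩
  · obtain ⟨a, ha, hac⟩ := exists_scale hc hn
    have key : MobConj A (RatFunc.X ^ n) := by
      refine mobConj_of nA nE hF1 h (deg_scl ha) ?_
      rw [scl_comp a nE, comp_zpow (nc_scl ha), X_comp, scl_eq, mul_zpow, mon, ← mul_assoc,
        ← map_mul, hac, map_zpow₀]
    rcases zpow_eq_or n with e | e
    · left; rwa [← e]
    · right; left; rwa [← e]
  · right; right
    obtain ⟨r, hr⟩ := IsAlgClosed.exists_pow_nat_eq κ (n := 2) (by norm_num)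
    have hr0 : r ≠ 0 := by
      rintro rfl
      rw [zero_pow (by norm_num)] at hr
      exact hκ hr.symm
    have hX := X_ne
    have hCr : (RatFunc.C r : RatFunc ℂ) ≠ 0 := (_root_.map_ne_zero _).2 hr0
    set L := scl r with hL
    have nL : NC L := nc_scl hr0
    have hLe : L = RatFunc.C r * RatFunc.X := scl_eq r
    have hLc : ∀ {B : RatFunc ℂ}, NC B → comp L B = RatFunc.C r * B := fun h => scl_comp r h
    set F' := comp F L with hF'
    have nF' : NC F' := nc_comp nF nL
    have degF' : deg F' = 2 := by rw [hF', deg_comp nL, hF2, deg_scl hr0]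
    have hK : (RatFunc.C κ / RatFunc.X : RatFunc ℂ) = mob 0 κ 1 0 := by simp [mob]
    have nK : NC (RatFunc.C κ / RatFunc.X : RatFunc ℂ) := by
      rw [hK]; exact nc_mob (by simpa using hκ)
    have hLJ : comp L Jinv = comp (RatFunc.C κ / RatFunc.X) L := by
      rw [hLc nc_Jinv, comp_div nL, comp_C, X_comp, Jinv_eq, hLe, ← hr, map_pow]
      field_simp
    have hsym' : comp F' Jinv = F' := by
      rw [hF', comp_assoc F nL nc_Jinv, hLJ, ← comp_assoc F nK nL, hsym]
    set c' := c * r ^ n / r with hc'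
    have hc'0 : c' ≠ 0 := div_ne_zero (mul_ne_zero hc (zpow_ne_zero n hr0)) hr0
    have nE' : NC (mon c' n) := nc_of_deg (by rw [deg_mon hc'0]; omega)
    have hEL : comp (mon c n) L = comp L (mon c' n) := by
      rw [mon_comp c n nL, hLc nE', hLe, mul_zpow, mon, ← mul_assoc, ← mul_assoc,
        ← map_zpow₀, ← map_mul, ← map_mul, hc']
      congr 2
      field_simp
    have hAF' : comp A F' = comp F' (mon c' n) := by
      rw [hF', ← comp_assoc A nF nL, h, comp_assoc F nE nL, hEL, ← comp_assoc F nL nE']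
    obtain ⟨M, hM, hFM⟩ := exists_mob_Jou degF' hsym'
    obtain ⟨G, hG, hGM, hMG⟩ := exists_mobInv hM
    have nM : NC M := nc_of_deg hM.ge
    have nG : NC G := nc_of_deg hG.ge
    have hGF : comp G F' = Jou := by
      rw [hFM, ← comp_assoc G nM nc_Jou, hGM, X_comp]
    have hJE : comp Jou (mon c' n) = comp G (comp F' (mon c' n)) := by
      rw [← hGF, comp_assoc G nF' nE']
    have hinv : comp (comp Jou (mon c' n)) Jinv = comp Jou (mon c' n) := by
      rw [hJE, comp_assoc G (nc_comp nF' nE') nc_Jinv, ← hAF', comp_assoc A nF' nc_Jinv, hsym']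
    have hJE2 : comp Jou (mon c' n) = mon c' n + 1 / mon c' n := by
      rw [Jou, comp_add nE', comp_div nE', comp_one, X_comp]
    have hCc' : (RatFunc.C c' : RatFunc ℂ) ≠ 0 := (_root_.map_ne_zero _).2 hc'0
    have hXn : (RatFunc.X ^ n : RatFunc ℂ) ≠ 0 := zpow_ne_zero n hX
    have hsq : c' ^ 2 = 1 := by
      rw [hJE2, comp_add nc_Jinv, comp_div nc_Jinv, comp_one, mon_comp c' n nc_Jinv, Jinv_eq, one_div,
        inv_zpow, mon] at hinv
      have h1 : ((RatFunc.C c' : RatFunc ℂ) ^ 2 - 1) * ((RatFunc.X ^ n) ^ 2 - 1) = 0 := by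
        field_simp at hinv
        linear_combination -hinv
      rcases mul_eq_zero.1 h1 with h2 | h2
      · have h3 : (RatFunc.C (c' ^ 2 - 1) : RatFunc ℂ) = 0 := by
          rw [map_sub, map_pow, map_one]; exact h2
        exact sub_eq_zero.1 ((map_eq_zero _).1 h3)
      · exfalso
        have h3 : mon 1 (n * 2) = RatFunc.C 1 := by
          rw [mon, map_one, one_mul, zpow_mul]
          exact sub_eq_zero.1 h2
        have h4 : NC (mon 1 (n * 2)) := nc_of_deg (by rw [deg_mon one_ne_zero]; omega)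
        exact h4 ⟨1, h3⟩
    have hJE3 : comp Jou (mon c' n) =
        RatFunc.C c' * (RatFunc.X ^ n.natAbs + 1 / RatFunc.X ^ n.natAbs) := by
      rw [hJE2, ← zpow_add_neg, mon]
      have h3 : (RatFunc.C c' : RatFunc ℂ) ^ 2 = 1 := by rw [← map_pow, hsq, map_one]
      field_simp
      linear_combination -h3
    set B := comp G (comp A M) with hB
    have nB : NC B := nc_comp nG (nc_comp nA nM)
    have hMB : comp A M = comp M B := by
      rw [hB, ← comp_assoc M nG (nc_comp nA nM), hMG, X_comp]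
    have hBJ : comp B Jou = comp Jou (mon c' n) := by
      rw [hB, comp_assoc G (nc_comp nA nM) nc_Jou, comp_assoc A nM nc_Jou, ← hFM, hAF', hJE]
    have h2 : (1/2 : ℂ) ≠ 0 := by norm_num
    have nH := nc_scl h2
    have hHJ : comp (scl (1/2)) Jou = RatFunc.C (1/2) * Jou := scl_comp _ nc_Jou
    have key : comp (scl (1/2)) B = comp (RatFunc.C c' * chebT n.natAbs) (scl (1/2)) := by
      apply comp_injective nc_Jou
      rw [comp_assoc _ nB nc_Jou, hBJ, scl_comp _ (nc_comp nc_Jou nE'), hJE3,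
        comp_assoc _ nH nc_Jou, hHJ]
      have nHJ : NC (RatFunc.C (1/2) * Jou : RatFunc ℂ) := by
        rw [← hHJ]; exact nc_comp nH nc_Jou
      rw [comp_mul nHJ, comp_C, chebT, comp_algebraMap nHJ, cheb_Jou]
      ring
    have key2 := mobConj_of nA nB hM hMB (deg_scl h2) key
    have h1 : c' = 1 ∨ c' = -1 := by
      have : (c' - 1) * (c' + 1) = 0 := by linear_combination hsq
      rcases mul_eq_zero.1 this with h | h
      · left; linear_combination h
      · right; linear_combination h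
    rcases h1 with h1 | h1
    · left
      rw [h1, map_one, one_mul] at key2
      exact key2
    · right
      rw [h1, map_neg, map_one, neg_one_mul] at key2
      exact key2

end Pool.Agent.Helper65
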