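import Mathlib
import Pool.Agent.Helper56.Harm.C

/-!
The Green function of a complex polynomial: construction and behaviour near infinity.
-/

open Filter Topology Asymptotics Bornology InnerProductSpace Polynomial
open scoped Real

namespace Pool.Agent.Helper60.PG

/-! ### behaviour of polynomials near infinity -/

lemma reverse_eval {Q : ℂ[X]} {z : ℂ} (hz : z ≠ 0) :
    Q.reverse.eval z⁻¹ * z ^ Q.natDegree = Q.eval z := by
  let _ := invertibleOfNonzero hz
  have := eval₂_reverse_mul_pow (RingHom.id ℂ) z Q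
  simpa [eval₂_id] using this

lemma ne_zero_cob : ∀ᶠ z in cobounded ℂ, z ≠ 0 := by
  filter_upwards [eventually_ne_cobounded (0 : ℂ)] with z hz using hz

lemma tendsto_poly {Q : ℂ[X]} (hQ : 1 ≤ Q.natDegree) :
    Tendsto (fun z => Q.eval z) (cobounded ℂ) (cobounded ℂ) := by
  rw [← tendsto_norm_atTop_iff_cobounded]
  exact Q.tendsto_norm_atTop (natDegree_pos_iff_degree_pos.1 hQ) tendsto_norm_cobounded_atTop

lemma isBigO_log_norm {f : ℂ → ℂ} (hf : AnalyticAt ℂ f 0) (h0 : f 0 ≠ 0) :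
    (fun w => Real.log ‖f w‖ - Real.log ‖f 0‖) =O[𝓝 0] (fun w => ‖w‖) := by
  have h1 : HarmonicAt (fun w => Real.log ‖f w‖) 0 := hf.harmonicAt_log_norm h0
  have h2 : DifferentiableAt ℝ (fun w => Real.log ‖f w‖) 0 :=
    (h1.1).differentiableAt (by norm_num)
  have h3 := h2.hasFDerivAt.isBigO_sub
  simpa using h3.norm_right

/-- `log |Q z| = d log |z| + log |lead| + O(1/|z|)`. -/
lemma log_poly {Q : ℂ[X]} (hQ : Q ≠ 0) :
    (fun z => Real.log ‖Q.eval z‖ - Q.natDegree * Real.log ‖z‖ - Real.log ‖Q.leadingCoeff‖)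
      =O[cobounded ℂ] (fun z => ‖z‖⁻¹) := by
  have hlead : Q.reverse.eval 0 = Q.leadingCoeff := by
    rw [← coeff_zero_eq_eval_zero, coeff_zero_reverse]
  have hl0 : Q.leadingCoeff ≠ 0 := leadingCoeff_ne_zero.2 hQ
  have h1 := isBigO_log_norm (f := fun w => Q.reverse.eval w)
    (AnalyticOnNhd.eval_polynomial _ 0 (Set.mem_univ _)) (by rw [hlead]; exact hl0)
  have h2 := h1.comp_tendsto (tendsto_inv₀_cobounded (α := ℂ))
  have h3 : ∀ᶠ z in cobounded ℂ, Q.reverse.eval z⁻¹ ≠ 0 := by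
    have : Tendsto (fun z : ℂ => Q.reverse.eval z⁻¹) (cobounded ℂ) (𝓝 (Q.reverse.eval 0)) :=
      (Q.reverse.continuous.tendsto 0).comp tendsto_inv₀_cobounded
    exact this.eventually_ne (by rw [hlead]; exact hl0)
  refine (h2.congr' ?_ ?_)
  · filter_upwards [ne_zero_cob, h3] with z hz hz'
    simp only [Function.comp_apply]
    rw [hlead]
    have := reverse_eval (Q := Q) hz
    rw [← this, norm_mul, norm_pow, Real.log_mul (norm_ne_zero_iff.2 hz')
      (pow_ne_zero _ (norm_ne_zero_iff.2 hz)), Real.log_pow]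
    ring
  · filter_upwards with z
    simp

/-- eventually `|P z| ≥ |z|`. -/
lemma norm_poly_ge {P : ℂ[X]} (hP : 2 ≤ P.natDegree) : ∀ᶠ z in cobounded ℂ, ‖z‖ ≤ ‖P.eval z‖ := by
  have hP0 : P ≠ 0 := by rintro rfl; simp at hP
  obtain ⟨K, hK⟩ := (log_poly hP0).bound
  have hlog : Tendsto (fun z : ℂ => Real.log ‖z‖) (cobounded ℂ) atTop :=
    Real.tendsto_log_atTop.comp tendsto_norm_cobounded_atTop
  filter_upwards [hK, hlog.eventually_ge_atTop (max 0 (|K| - Real.log ‖P.leadingCoeff‖)),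
    tendsto_norm_cobounded_atTop.eventually_ge_atTop 1, ne_zero_cob,
    (tendsto_norm_cobounded_atTop.comp (tendsto_poly (by omega : 1 ≤ P.natDegree))).eventually_ge_atTop 1]
    with z h1 h2 h3 h4 h5
  simp only [Function.comp_apply] at h5
  have hz : 0 < ‖z‖ := norm_pos_iff.2 h4
  have h6 : ‖z‖⁻¹ ≤ 1 := inv_le_one_of_one_le₀ h3
  rw [Real.norm_eq_abs, norm_inv, norm_norm] at h1
  have h7 : K * ‖z‖⁻¹ ≤ |K| := by
    calc K * ‖z‖⁻¹ ≤ |K| * ‖z‖⁻¹ := by gcongr; exact le_abs_self K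
      _ ≤ |K| * 1 := by gcongr
      _ = |K| := mul_one _
  have h8 := (abs_le.1 (h1.trans h7)).1
  have h9 : (2 : ℝ) ≤ P.natDegree := by exact_mod_cast hP
  have h10 : 0 ≤ Real.log ‖z‖ := (le_max_left _ _).trans h2
  have h11 : |K| - Real.log ‖P.leadingCoeff‖ ≤ Real.log ‖z‖ := (le_max_right _ _).trans h2
  have h12 : Real.log ‖z‖ ≤ Real.log ‖P.eval z‖ := by nlinarith
  exact (Real.log_le_log_iff hz (by linarith)).1 h12

/-! ### the Green function -/

/-- The defect. -/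
noncomputable def ee (P : ℂ[X]) (w : ℂ) : ℝ :=
  Real.posLog ‖P.eval w‖ - P.natDegree * Real.posLog ‖w‖

lemma ee_cont (P : ℂ[X]) : Continuous (ee P) := by
  unfold ee
  have := Real.continuous_posLog
  have h2 := P.continuous
  fun_prop

lemma posLog_eq_log' {w : ℂ} (h : 1 ≤ ‖w‖) : Real.posLog ‖w‖ = Real.log ‖w‖ :=
  Real.posLog_eq_log (by rwa [abs_norm])

lemma ee_inf {P : ℂ[X]} (hP : 2 ≤ P.natDegree) :
    (fun z => ee P z - Real.log ‖P.leadingCoeff‖) =O[cobounded ℂ] (fun z => ‖z‖⁻¹) := by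
  have hP0 : P ≠ 0 := by rintro rfl; simp at hP
  refine (log_poly hP0).congr' ?_ EventuallyEq.rfl
  filter_upwards [tendsto_norm_cobounded_atTop.eventually_ge_atTop 1,
    (tendsto_norm_cobounded_atTop.comp (tendsto_poly (by omega : 1 ≤ P.natDegree))).eventually_ge_atTop 1]
    with z h1 h2
  simp only [Function.comp_apply] at h2
  rw [ee, posLog_eq_log' h1, posLog_eq_log' h2]

lemma tendsto_inv_norm : Tendsto (fun z : ℂ => ‖z‖⁻¹) (cobounded ℂ) (𝓝 0) :=
  tendsto_inv_atTop_zero.comp tendsto_norm_cobounded_atTop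

lemma ee_bdd {P : ℂ[X]} (hP : 2 ≤ P.natDegree) : ∃ C, ∀ z, |ee P z| ≤ C := by
  have h1 : Tendsto (fun z => ee P z - Real.log ‖P.leadingCoeff‖) (cobounded ℂ) (𝓝 0) :=
    (ee_inf hP).trans_tendsto tendsto_inv_norm
  have h2 : ∀ᶠ z in cobounded ℂ, |ee P z - Real.log ‖P.leadingCoeff‖| < 1 := by
    have := h1.abs
    rw [abs_zero] at this
    exact this.eventually_lt_const one_pos
  rw [Metric.cobounded_eq_cocompact] at h2
  obtain ⟨K, hK, hKs⟩ := mem_cocompact.1 h2
  obtain ⟨C, hC⟩ := hK.exists_bound_of_continuousOn (ee_cont P).continuousOn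
  refine ⟨max C (1 + |Real.log ‖P.leadingCoeff‖|), fun z => ?_⟩
  by_cases hz : z ∈ K
  · exact (hC z hz).trans (le_max_left _ _)
  · have := hKs hz
    refine le_trans ?_ (le_max_right _ _)
    have h3 : |ee P z - Real.log ‖P.leadingCoeff‖| < 1 := this
    have h4 := abs_sub_abs_le_abs_sub (ee P z) (Real.log ‖P.leadingCoeff‖)
    linarith

/-- The Green function. -/
noncomputable def gr (P : ℂ[X]) (z : ℂ) : ℝ :=
  Real.posLog ‖z‖ + ∑' n : ℕ, ee P ((fun x => P.eval x)^[n] z) / (P.natDegree : ℝ) ^ (n + 1)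

section
variable {P : ℂ[X]} (hP : 2 ≤ P.natDegree)
include hP

lemma term_bound {C : ℝ} {a : ℝ} (ha : |a| ≤ C) (n : ℕ) :
    ‖a / (P.natDegree : ℝ) ^ (n + 1)‖ ≤ C / 2 / 2 ^ n := by
  have h2 : (2 : ℝ) ≤ P.natDegree := by exact_mod_cast hP
  have hC : 0 ≤ C := (abs_nonneg a).trans ha
  rw [norm_div, norm_pow, Real.norm_eq_abs, Real.norm_eq_abs, Nat.abs_cast, div_div, ← pow_succ']
  gcongr

lemma gr_summable (z : ℂ) :
    Summable (fun n : ℕ => ee P ((fun x => P.eval x)^[n] z) / (P.natDegree : ℝ) ^ (n + 1)) := by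
  obtain ⟨C, hC⟩ := ee_bdd hP
  exact Summable.of_norm_bounded (summable_geometric_two' C) (fun n => term_bound hP (hC _) n)

lemma gr_cont : Continuous (gr P) := by
  obtain ⟨C, hC⟩ := ee_bdd hP
  unfold gr
  refine Continuous.add ?_ ?_
  · exact Real.continuous_posLog.comp continuous_norm
  · refine continuous_tsum (u := fun n : ℕ => C / 2 / 2 ^ n) ?_ (summable_geometric_two' C) ?_
    · intro n
      refine Continuous.div_const ?_ _
      exact (ee_cont P).comp (P.continuous.iterate n)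
    · intro n z
      exact term_bound hP (hC _) n

lemma gr_close : ∃ C, ∀ z, |gr P z - Real.posLog ‖z‖| ≤ C := by
  obtain ⟨C, hC⟩ := ee_bdd hP
  refine ⟨C, fun z => ?_⟩
  have := tsum_of_norm_bounded (hasSum_geometric_two' C) (fun n => term_bound hP (hC ((fun x => P.eval x)^[n] z)) n)
  rw [gr, add_sub_cancel_left]
  exact this

lemma gr_fe (z : ℂ) : gr P (P.eval z) = P.natDegree * gr P z := by
  have h2 : (2 : ℝ) ≤ P.natDegree := by exact_mod_cast hP
  have hp : (P.natDegree : ℝ) ≠ 0 := by positivity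
  have h1 := (gr_summable hP z).tsum_eq_zero_add
  have h3 : ∀ n : ℕ, ee P ((fun x => P.eval x)^[n + 1] z) / (P.natDegree : ℝ) ^ (n + 1 + 1) =
      (P.natDegree : ℝ)⁻¹ * (ee P ((fun x => P.eval x)^[n] (P.eval z)) / (P.natDegree : ℝ) ^ (n + 1)) := by
    intro n
    rw [Function.iterate_succ_apply]
    field_simp
    ring
  rw [gr, gr, h1]
  simp only [h3]
  rw [tsum_mul_left]
  simp only [Function.iterate_zero, id_eq, zero_add, pow_one]
  rw [ee]
  field_simp
  ring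

lemma gr_iter (n : ℕ) (z : ℂ) : gr P ((fun x => P.eval x)^[n] z) = (P.natDegree : ℝ) ^ n * gr P z := by
  induction n with
  | zero => simp
  | succ n ih => rw [Function.iterate_succ_apply', gr_fe hP, ih]; ring

lemma gr_approx : ∃ C, ∀ (n : ℕ) z,
    |gr P z - Real.posLog ‖(fun x => P.eval x)^[n] z‖ / (P.natDegree : ℝ) ^ n| ≤ C / 2 ^ n := by
  obtain ⟨C, hC⟩ := gr_close hP
  have h2 : (2 : ℝ) ≤ P.natDegree := by exact_mod_cast hP
  refine ⟨C, fun n z => ?_⟩
  have h1 := hC ((fun x => P.eval x)^[n] z)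
  rw [gr_iter hP] at h1
  have hp : (0 : ℝ) < (P.natDegree : ℝ) ^ n := by positivity
  have h3 : gr P z - Real.posLog ‖(fun x => P.eval x)^[n] z‖ / (P.natDegree : ℝ) ^ n =
      ((P.natDegree : ℝ) ^ n * gr P z - Real.posLog ‖(fun x => P.eval x)^[n] z‖) / (P.natDegree : ℝ) ^ n := by
    field_simp
  have hC0 : 0 ≤ C := (abs_nonneg _).trans h1
  rw [h3, abs_div, abs_of_pos hp]
  gcongr

lemma gr_nonneg (z : ℂ) : 0 ≤ gr P z := by
  obtain ⟨C, hC⟩ := gr_approx hP
  have h1 : Tendsto (fun n : ℕ => C / 2 ^ n) atTop (𝓝 0) := by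
    have := (tendsto_pow_atTop_nhds_zero_of_lt_one (r := (1/2 : ℝ)) (by norm_num) (by norm_num)).const_mul C
    simpa [div_eq_mul_inv] using this
  have h2 : ∀ n : ℕ, - (C / 2 ^ n) ≤ gr P z := by
    intro n
    have h3 := (abs_le.1 (hC n z)).1
    have h4 : 0 ≤ Real.posLog ‖(fun x => P.eval x)^[n] z‖ / (P.natDegree : ℝ) ^ n :=
      div_nonneg Real.posLog_nonneg (by positivity)
    linarith
  have h5 := le_of_tendsto' h1.neg h2
  rwa [neg_zero] at h5

lemma gr_harm {z0 : ℂ} (h0 : gr P z0 ≠ 0) : HarmonicAt (gr P) z0 := by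
  obtain ⟨C, hC⟩ := gr_approx hP
  have h1 : Tendsto (fun n : ℕ => C / 2 ^ n) atTop (𝓝 0) := by
    have := (tendsto_pow_atTop_nhds_zero_of_lt_one (r := (1/2 : ℝ)) (by norm_num) (by norm_num)).const_mul C
    simpa [div_eq_mul_inv] using this
  have hpos : 0 < gr P z0 := lt_of_le_of_ne (gr_nonneg hP z0) (Ne.symm h0)
  obtain ⟨R, hR, hball⟩ : ∃ R > 0, ∀ z ∈ Metric.ball z0 R, gr P z0 / 2 < gr P z := by
    have := (gr_cont hP).continuousAt (x := z0)
    have h2 : ∀ᶠ z in 𝓝 z0, gr P z0 / 2 < gr P z := this.eventually_const_lt (by linarith)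
    exact Metric.eventually_nhds_iff_ball.1 h2
  refine Helper56.Harm.harmonic_of_unif (c := z0) (R := R) ?_ z0 (Metric.mem_ball_self hR)
  intro ε hε
  obtain ⟨n, hn1, hn2⟩ := ((h1.eventually_lt_const hε).and
    (h1.eventually_lt_const (by linarith : 0 < gr P z0 / 2))).exists
  refine ⟨fun z => Real.log ‖(P.comp^[n] X).eval z‖ / (P.natDegree : ℝ) ^ n, ?_, ?_⟩
  · intro z hz
    have h3 := hball z hz
    have h4 := (abs_le.1 (hC n z)).2
    have h5 : 0 < Real.posLog ‖(fun x => P.eval x)^[n] z‖ / (P.natDegree : ℝ) ^ n := by linarith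
    have h6 : (P.comp^[n] X).eval z = (fun x => P.eval x)^[n] z := by
      rw [iterate_comp_eval, eval_X]
    have h7 : (P.comp^[n] X).eval z ≠ 0 := by
      intro h8
      rw [← h6, h8] at h5
      simp at h5
    have h8 : HarmonicAt (fun z => Real.log ‖(P.comp^[n] X).eval z‖) z :=
      (AnalyticOnNhd.eval_polynomial _ z (Set.mem_univ z)).harmonicAt_log_norm h7
    have h9 := h8.const_smul (c := ((P.natDegree : ℝ) ^ n)⁻¹)
    refine (harmonicAt_congr_nhds ?_).mp h9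
    filter_upwards with x
    simp only [Pi.smul_apply, smul_eq_mul]
    ring
  · intro z hz
    have h3 := hball z hz
    have h4 := hC n z
    have h5 : 0 < Real.posLog ‖(fun x => P.eval x)^[n] z‖ / (P.natDegree : ℝ) ^ n := by
      have := (abs_le.1 h4).2
      linarith
    have h6 : (P.comp^[n] X).eval z = (fun x => P.eval x)^[n] z := by
      rw [iterate_comp_eval, eval_X]
    have h2 : (2 : ℝ) ≤ P.natDegree := by exact_mod_cast hP
    have hp : (0 : ℝ) < (P.natDegree : ℝ) ^ n := by positivity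
    have h7 : 0 < Real.posLog ‖(fun x => P.eval x)^[n] z‖ := by
      by_contra hcon
      have : Real.posLog ‖(fun x => P.eval x)^[n] z‖ / (P.natDegree : ℝ) ^ n ≤ 0 :=
        div_nonpos_of_nonpos_of_nonneg (not_lt.1 hcon) hp.le
      linarith
    have h8 : Real.posLog ‖(fun x => P.eval x)^[n] z‖ = Real.log ‖(fun x => P.eval x)^[n] z‖ := by
      rw [Real.posLog_apply] at h7 ⊢
      rcases lt_max_iff.1 h7 with h | h
      · exact absurd h (lt_irrefl _)
      · exact max_eq_right h.le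
    beta_reduce
    rw [h6, ← h8]
    exact h4.trans hn1.le

lemma gr_inf : ∃ c : ℝ, (fun z => gr P z - Real.log ‖z‖ - c) =O[cobounded ℂ] (fun z => ‖z‖⁻¹) := by
  have h2 : (2 : ℝ) ≤ P.natDegree := by exact_mod_cast hP
  set l := Real.log ‖P.leadingCoeff‖ with hl
  have hs : Summable (fun n : ℕ => l / (P.natDegree : ℝ) ^ (n + 1)) :=
    Summable.of_norm_bounded (summable_geometric_two' |l|) (fun n => term_bound hP le_rfl n)
  refine ⟨∑' n : ℕ, l / (P.natDegree : ℝ) ^ (n + 1), ?_⟩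
  obtain ⟨K, hK⟩ := (ee_inf hP).bound
  obtain ⟨R1, hR1⟩ : ∃ R : ℝ, ∀ z : ℂ, R ≤ ‖z‖ → ‖ee P z - l‖ ≤ K * ‖‖z‖⁻¹‖ ∧ ‖z‖ ≤ ‖P.eval z‖ := by
    have := (hK.and (norm_poly_ge hP))
    rw [← comap_norm_atTop, eventually_comap, eventually_atTop] at this
    obtain ⟨R, hR⟩ := this
    exact ⟨R, fun z hz => hR _ hz z rfl⟩
  refine IsBigO.of_bound (|K|) ?_
  filter_upwards [tendsto_norm_cobounded_atTop.eventually_ge_atTop (max 1 R1)] with z hz
  have hz1 : 1 ≤ ‖z‖ := (le_max_left _ _).trans hz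
  have hzR : R1 ≤ ‖z‖ := (le_max_right _ _).trans hz
  have hit : ∀ n : ℕ, ‖z‖ ≤ ‖(fun x => P.eval x)^[n] z‖ := by
    intro n
    induction n with
    | zero => exact le_rfl
    | succ n ih =>
      rw [Function.iterate_succ_apply']
      exact ih.trans (hR1 _ (hzR.trans ih)).2
  have h3 : gr P z - Real.log ‖z‖ - ∑' n : ℕ, l / (P.natDegree : ℝ) ^ (n + 1) =
      ∑' n : ℕ, (ee P ((fun x => P.eval x)^[n] z) - l) / (P.natDegree : ℝ) ^ (n + 1) := by
    have h4 := (gr_summable hP z).tsum_sub hs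
    simp only [sub_div]
    rw [h4, gr, posLog_eq_log' hz1]
    ring
  rw [h3]
  refine tsum_of_norm_bounded (hasSum_geometric_two' (|K| * ‖‖z‖⁻¹‖)) (fun n => ?_)
  refine term_bound hP ?_ n
  have h5 := (hR1 _ (hzR.trans (hit n))).1
  rw [← Real.norm_eq_abs]
  refine h5.trans ?_
  have hzpos : 0 < ‖z‖ := by linarith
  calc K * ‖‖(fun x => P.eval x)^[n] z‖⁻¹‖ ≤ |K| * ‖‖(fun x => P.eval x)^[n] z‖⁻¹‖ := by
        gcongr; exact le_abs_self K
    _ ≤ |K| * ‖‖z‖⁻¹‖ := by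
        rw [norm_inv, norm_norm, norm_inv, norm_norm]
        gcongr
        exact hit n

end

end Pool.Agent.Helper60.PG
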