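import Mathlib
import Pool.Agent.Helper60.RF.PG1

/-!
Flatness at infinity, and polynomials of the same modulus up to high order.
-/

open Filter Topology Asymptotics Bornology InnerProductSpace Polynomial
open scoped Real

namespace Pool.Agent.Helper60.PG

/-- If `Re F` is flat to order `m` at `0` then so is `F`. -/
lemma isBigO_of_re {F : ℂ → ℂ} (hF : AnalyticAt ℂ F 0) {m : ℕ}
    (h : (fun w => (F w).re - (F 0).re) =O[𝓝[≠] 0] (fun w => ‖w‖ ^ m)) :
    (fun w => F w - F 0) =O[𝓝[≠] 0] (fun w => ‖w‖ ^ m) := by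
  by_cases hz : ∀ᶠ w in 𝓝 (0 : ℂ), F w - F 0 = 0
  · refine IsBigO.of_bound 0 ?_
    filter_upwards [hz.filter_mono nhdsWithin_le_nhds] with w hw
    simp [hw]
  · have hD : AnalyticAt ℂ (fun w => F w - F 0) 0 := hF.sub analyticAt_const
    obtain ⟨k, g, hg, hg0, hgz⟩ := hD.exists_eventuallyEq_pow_smul_nonzero_iff.2 hz
    simp only [sub_zero, smul_eq_mul] at hgz
    have hk1 : k ≠ 0 := by
      rintro rfl
      have := hgz.self_of_nhds
      simp at this
      exact hg0 this.symm
    have hkm : m ≤ k := by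
      by_contra hcon
      push Not at hcon
      obtain ⟨ω, hω⟩ := IsAlgClosed.exists_pow_nat_eq ((‖g 0‖ : ℂ) / g 0) (n := k) (by omega)
      have hωn : ‖ω‖ = 1 := by
        have h1 := congrArg norm hω
        rw [norm_pow, norm_div, Complex.norm_real, norm_norm,
          div_self (norm_ne_zero_iff.2 hg0)] at h1
        exact (pow_eq_one_iff_of_nonneg (norm_nonneg _) hk1).1 h1
      have hω0 : ω ≠ 0 := by
        rintro rfl
        simp at hωn
      have hγ : Tendsto (fun t : ℝ => (t : ℂ) * ω) (𝓝[>] 0) (𝓝[≠] 0) := by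
        rw [tendsto_nhdsWithin_iff]
        constructor
        · have : Continuous (fun t : ℝ => (t : ℂ) * ω) := by fun_prop
          have h1 := this.tendsto 0
          simp only [Complex.ofReal_zero, zero_mul] at h1
          exact h1.mono_left nhdsWithin_le_nhds
        · filter_upwards [self_mem_nhdsWithin] with t ht
          have : (t : ℂ) ≠ 0 := by exact_mod_cast (ne_of_gt ht)
          exact mul_ne_zero this hω0
      have T1 : Tendsto (fun t : ℝ => ((F (t * ω)).re - (F 0).re) / t ^ k) (𝓝[>] 0) (𝓝 ‖g 0‖) := by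
        have h1 : Tendsto (fun t : ℝ => (ω ^ k * g (t * ω)).re) (𝓝[>] 0) (𝓝 ((ω ^ k * g 0).re)) := by
          have h2 : Tendsto (fun t : ℝ => g (t * ω)) (𝓝[>] 0) (𝓝 (g 0)) :=
            hg.continuousAt.tendsto.comp (hγ.mono_right nhdsWithin_le_nhds)
          exact (Complex.continuous_re.tendsto _).comp (h2.const_mul _)
        have h3 : (ω ^ k * g 0).re = ‖g 0‖ := by
          rw [hω, div_mul_cancel₀ _ hg0, Complex.ofReal_re]
        rw [h3] at h1
        refine h1.congr' ?_
        have h4 := (hγ.mono_right nhdsWithin_le_nhds).eventually hgz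
        filter_upwards [h4, self_mem_nhdsWithin] with t ht ht0
        have ht0' : (0 : ℝ) < t := ht0
        rw [← Complex.sub_re, ht, mul_pow, mul_assoc, ← Complex.ofReal_pow, Complex.re_ofReal_mul]
        field_simp
      have T2 : Tendsto (fun t : ℝ => ((F (t * ω)).re - (F 0).re) / t ^ k) (𝓝[>] 0) (𝓝 0) := by
        obtain ⟨K, hK⟩ := (h.comp_tendsto hγ).bound
        have h1 : Tendsto (fun t : ℝ => |K| * t ^ (m - k)) (𝓝[>] 0) (𝓝 0) := by
          have h2 : Continuous (fun t : ℝ => |K| * t ^ (m - k)) := by fun_prop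
          have h3 := h2.tendsto 0
          rw [zero_pow (by omega), mul_zero] at h3
          exact h3.mono_left nhdsWithin_le_nhds
        refine squeeze_zero_norm' ?_ h1
        filter_upwards [hK, self_mem_nhdsWithin] with t ht ht0
        have ht0' : (0 : ℝ) < t := ht0
        simp only [Function.comp_apply] at ht
        rw [norm_mul, hωn, mul_one, Complex.norm_real, norm_pow, norm_norm, Real.norm_eq_abs t,
          abs_of_pos ht0'] at ht
        rw [norm_div, norm_pow, Real.norm_eq_abs t, abs_of_pos ht0', div_le_iff₀ (by positivity)]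
        refine ht.trans ?_
        rw [mul_assoc, ← pow_add, Nat.sub_add_cancel hcon.le]
        gcongr
        exact le_abs_self K
      have := tendsto_nhds_unique T1 T2
      exact hg0 (norm_eq_zero.1 this)
    have h1 : (fun w => w ^ k * g w) =O[𝓝 0] (fun w : ℂ => ‖w‖ ^ m) := by
      have h2 : g =O[𝓝 0] (fun _ => (1 : ℝ)) := hg.continuousAt.tendsto.isBigO_one ℝ
      have h3 : (fun w : ℂ => w ^ k) =O[𝓝 0] (fun w : ℂ => ‖w‖ ^ m) := by
        refine IsBigO.of_bound 1 ?_
        have : ∀ᶠ w : ℂ in 𝓝 0, ‖w‖ ≤ 1 := by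
          have := (continuous_norm (E := ℂ)).tendsto 0
          rw [norm_zero] at this
          exact this.eventually_le_const one_pos
        filter_upwards [this] with w hw
        rw [norm_pow, norm_pow, norm_norm, one_mul]
        exact pow_le_pow_of_le_one (norm_nonneg _) hw hkm
      simpa using h3.mul h2
    exact (h1.congr' (by filter_upwards [hgz] with w hw; exact hw.symm) EventuallyEq.rfl).mono
      nhdsWithin_le_nhds

/-- Flatness at infinity. -/
lemma flat_inf {u : ℂ → ℝ} (hu : ∀ᶠ z in cobounded ℂ, HarmonicAt u z) {κ : ℝ}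
    (hN : ∀ N : ℕ, (fun z => u z - κ) =O[cobounded ℂ] (fun z => ‖z‖⁻¹ ^ N)) :
    ∀ᶠ z in cobounded ℂ, u z = κ := by
  classical
  set v : ℂ → ℝ := fun w => if w = 0 then κ else u w⁻¹ with hv
  have hinv : Tendsto Inv.inv (𝓝[≠] (0 : ℂ)) (cobounded ℂ) := tendsto_inv₀_nhdsNE_zero
  have hvO : ∀ N : ℕ, (fun w => v w - κ) =O[𝓝[≠] 0] (fun w => ‖w‖ ^ N) := by
    intro N
    refine ((hN N).comp_tendsto hinv).congr' ?_ ?_
    · filter_upwards [self_mem_nhdsWithin] with w hw
      have : w ≠ 0 := hw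
      simp [hv, this]
    · filter_upwards with w
      simp
  have hcont : ContinuousAt v 0 := by
    rw [continuousAt_iff_punctured_nhds]
    have h1 : Tendsto (fun w => v w - κ) (𝓝[≠] 0) (𝓝 0) := by
      refine (hvO 1).trans_tendsto ?_
      have : Tendsto (fun w : ℂ => ‖w‖ ^ 1) (𝓝 0) (𝓝 0) := by
        have := (continuous_norm (E := ℂ)).tendsto 0
        simpa using this
      exact this.mono_left nhdsWithin_le_nhds
    have h2 := h1.add_const κ
    simp only [sub_add_cancel, zero_add] at h2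
    have h3 : v 0 = κ := by simp [hv]
    rwa [h3]
  have hharm : ∀ᶠ w in 𝓝[≠] (0 : ℂ), HarmonicAt v w := by
    filter_upwards [hinv.eventually hu, self_mem_nhdsWithin] with w hw hw0
    have hw0' : w ≠ 0 := hw0
    have h1 := Helper56.Harm.harmonicAt_comp (h := fun x => x⁻¹) hw (analyticAt_id.inv hw0')
    refine (harmonicAt_congr_nhds ?_).mp h1
    filter_upwards [isOpen_ne.mem_nhds hw0'] with x hx
    have hx' : x ≠ 0 := hx
    simp [hv, hx']
  have h0 : HarmonicAt v 0 := Helper56.Harm.harmonicAt_of_punctured hcont hharm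
  obtain ⟨ε, hε, hsub⟩ := Metric.isOpen_iff.mp (isOpen_setOfPred_harmonicAt v) 0 h0
  obtain ⟨F, hF, hFv⟩ := HarmonicOnNhd.exists_analyticOnNhd_ball_re_eq (f := v) (z := 0) (R := ε)
    (fun y hy => hsub hy)
  have hF0 := hF 0 (Metric.mem_ball_self hε)
  have hFv' : ∀ᶠ w in 𝓝 (0 : ℂ), (F w).re = v w := by
    filter_upwards [Metric.ball_mem_nhds (0 : ℂ) hε] with w hw using hFv hw
  have hv0 : (F 0).re = κ := by rw [hFv'.self_of_nhds]; simp [hv]
  have hFO : ∀ N : ℕ, (fun w => F w - F 0) =O[𝓝[≠] 0] (fun w => ‖w‖ ^ N) := by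
    intro N
    refine isBigO_of_re hF0 ?_
    refine (hvO N).congr' ?_ EventuallyEq.rfl
    filter_upwards [hFv'.filter_mono nhdsWithin_le_nhds] with w hw
    rw [hw, hv0]
  have hconst : ∀ᶠ w in 𝓝 (0 : ℂ), F w - F 0 = 0 := by
    by_contra hz
    have hD : AnalyticAt ℂ (fun w => F w - F 0) 0 := hF0.sub analyticAt_const
    obtain ⟨k, g, hg, hg0, hgz⟩ := hD.exists_eventuallyEq_pow_smul_nonzero_iff.2 hz
    simp only [sub_zero, smul_eq_mul] at hgz
    have h1 : Tendsto (fun w => ‖F w - F 0‖ / ‖w‖ ^ k) (𝓝[≠] 0) (𝓝 ‖g 0‖) := by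
      have h2 : Tendsto (fun w => ‖g w‖) (𝓝[≠] 0) (𝓝 ‖g 0‖) :=
        (hg.continuousAt.tendsto.mono_left nhdsWithin_le_nhds).norm
      refine h2.congr' ?_
      filter_upwards [hgz.filter_mono nhdsWithin_le_nhds, self_mem_nhdsWithin] with w hw hw0
      have hw0' : w ≠ 0 := hw0
      rw [hw, norm_mul, norm_pow]
      field_simp
    have h3 : Tendsto (fun w => ‖F w - F 0‖ / ‖w‖ ^ k) (𝓝[≠] 0) (𝓝 0) := by
      obtain ⟨K, hK⟩ := (hFO (k + 1)).bound
      have h4 : Tendsto (fun w : ℂ => |K| * ‖w‖) (𝓝[≠] 0) (𝓝 0) := by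
        have h2 : Continuous (fun w : ℂ => |K| * ‖w‖) := by fun_prop
        have h3 := h2.tendsto 0
        rw [norm_zero, mul_zero] at h3
        exact h3.mono_left nhdsWithin_le_nhds
      refine squeeze_zero_norm' ?_ h4
      filter_upwards [hK, self_mem_nhdsWithin] with w hw hw0
      have hw0' : w ≠ 0 := hw0
      rw [norm_div, norm_norm, norm_pow, norm_norm, div_le_iff₀ (by positivity)]
      refine hw.trans ?_
      rw [norm_pow, norm_norm, pow_succ', ← mul_assoc]
      gcongr
      exact le_abs_self K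
    exact hg0 (norm_eq_zero.1 (tendsto_nhds_unique h1 h3))
  have hvc : ∀ᶠ w in 𝓝 (0 : ℂ), v w = κ := by
    filter_upwards [hconst, hFv'] with w h1 h2
    rw [← h2, sub_eq_zero.1 h1, hv0]
  filter_upwards [(tendsto_inv₀_cobounded (α := ℂ)).eventually hvc, ne_zero_cob] with z hz hz0
  have : z⁻¹ ≠ 0 := inv_ne_zero hz0
  simpa [hv, this] using hz

/-- Polynomials of the same modulus up to order `m` differ by an affine map. -/
lemma affine_of_log {U W : ℂ[X]} {m : ℕ} (hm : 1 ≤ m) (hU : U.natDegree = m) (hW : W.natDegree = m)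
    {κ : ℝ} (h : (fun z => Real.log ‖U.eval z‖ - Real.log ‖W.eval z‖ - κ) =O[cobounded ℂ]
      (fun z => ‖z‖⁻¹ ^ m)) :
    ∃ α β : ℂ, α ≠ 0 ∧ Real.log ‖α‖ = κ ∧ U = C α * W + C β := by
  have hU0 : U ≠ 0 := by rintro rfl; simp at hU; omega
  have hW0 : W ≠ 0 := by rintro rfl; simp at hW; omega
  have hleadU : U.reverse.eval 0 = U.leadingCoeff := by
    rw [← coeff_zero_eq_eval_zero, coeff_zero_reverse]
  have hleadW : W.reverse.eval 0 = W.leadingCoeff := by
    rw [← coeff_zero_eq_eval_zero, coeff_zero_reverse]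
  have hlU : U.leadingCoeff ≠ 0 := leadingCoeff_ne_zero.2 hU0
  have hlW : W.leadingCoeff ≠ 0 := leadingCoeff_ne_zero.2 hW0
  set f : ℂ → ℂ := fun w => U.reverse.eval w / W.reverse.eval w with hf
  set α := f 0 with hα
  have hα0 : α ≠ 0 := by
    rw [hα, hf]
    simp only [hleadU, hleadW]
    exact div_ne_zero hlU hlW
  have hfan : AnalyticAt ℂ f 0 :=
    (AnalyticOnNhd.eval_polynomial _ 0 (Set.mem_univ _)).div
      (AnalyticOnNhd.eval_polynomial _ 0 (Set.mem_univ _)) (by rw [hleadW]; exact hlW)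
  -- values near zero
  have hWne : ∀ᶠ w in 𝓝 (0 : ℂ), W.reverse.eval w ≠ 0 :=
    (W.reverse.continuous.continuousAt).eventually_ne (by rw [hleadW]; exact hlW)
  have hUne : ∀ᶠ w in 𝓝 (0 : ℂ), U.reverse.eval w ≠ 0 :=
    (U.reverse.continuous.continuousAt).eventually_ne (by rw [hleadU]; exact hlU)
  have hlogf : (fun w => Real.log ‖f w‖ - κ) =O[𝓝[≠] 0] (fun w => ‖w‖ ^ m) := by
    have hinv : Tendsto Inv.inv (𝓝[≠] (0 : ℂ)) (cobounded ℂ) := tendsto_inv₀_nhdsNE_zero
    refine (h.comp_tendsto hinv).congr' ?_ ?_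
    · filter_upwards [self_mem_nhdsWithin, hWne.filter_mono nhdsWithin_le_nhds,
        hUne.filter_mono nhdsWithin_le_nhds] with w hw hw1 hw2
      have hw0 : w ≠ 0 := hw
      have e1 := reverse_eval (Q := U) (inv_ne_zero hw0)
      have e2 := reverse_eval (Q := W) (inv_ne_zero hw0)
      rw [inv_inv] at e1 e2
      simp only [Function.comp_apply]
      rw [← e1, ← e2, hU, hW, norm_mul, norm_mul, hf]
      simp only [norm_div]
      have hwm : ‖(w⁻¹ : ℂ) ^ m‖ ≠ 0 := norm_ne_zero_iff.2 (pow_ne_zero _ (inv_ne_zero hw0))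
      rw [Real.log_mul (norm_ne_zero_iff.2 hw2) hwm, Real.log_mul (norm_ne_zero_iff.2 hw1) hwm,
        Real.log_div (norm_ne_zero_iff.2 hw2) (norm_ne_zero_iff.2 hw1)]
      ring
    · filter_upwards with w
      simp
  have hκ : Real.log ‖α‖ = κ := by
    have h1 : Tendsto (fun w => Real.log ‖f w‖) (𝓝[≠] 0) (𝓝 (Real.log ‖α‖)) := by
      have := (hfan.continuousAt.norm.log (norm_ne_zero_iff.2 hα0)).tendsto
      exact this.mono_left nhdsWithin_le_nhds
    have h2 : Tendsto (fun w => Real.log ‖f w‖ - κ) (𝓝[≠] 0) (𝓝 0) := by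
      refine hlogf.trans_tendsto ?_
      have h2 : Continuous (fun w : ℂ => ‖w‖ ^ m) := by fun_prop
      have h3 := h2.tendsto 0
      rw [norm_zero, zero_pow (by omega)] at h3
      exact h3.mono_left nhdsWithin_le_nhds
    have h3 := h2.add_const κ
    simp only [sub_add_cancel, zero_add] at h3
    exact tendsto_nhds_unique h1 h3
  set F : ℂ → ℂ := fun w => Complex.log (f w / α) with hF
  have hfa : f 0 / α = 1 := div_self hα0
  have hFan : AnalyticAt ℂ F 0 := by
    refine (hfan.div analyticAt_const hα0).clog ?_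
    simp only [Pi.div_apply]
    rw [hfa]
    exact Complex.one_mem_slitPlane
  have hF0 : F 0 = 0 := by simp only [hF]; rw [hfa, Complex.log_one]
  have hFO : (fun w => F w - F 0) =O[𝓝[≠] 0] (fun w => ‖w‖ ^ m) := by
    refine isBigO_of_re hFan ?_
    refine hlogf.congr' ?_ EventuallyEq.rfl
    filter_upwards [hWne.filter_mono nhdsWithin_le_nhds, hUne.filter_mono nhdsWithin_le_nhds]
      with w hw1 hw2
    have hfw : f w ≠ 0 := div_ne_zero hw2 hw1
    rw [hF0, Complex.zero_re, sub_zero]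
    show Real.log ‖f w‖ - κ = (Complex.log (f w / α)).re
    rw [Complex.log_re, norm_div (f w) α, Real.log_div (norm_ne_zero_iff.2 hfw)
      (norm_ne_zero_iff.2 hα0), hκ]
  rw [hF0] at hFO
  simp only [sub_zero] at hFO
  have hfO : (fun w => f w - α) =O[𝓝[≠] 0] (fun w => ‖w‖ ^ m) := by
    have hF00 : Tendsto F (𝓝[≠] 0) (𝓝 0) := by
      have := hFan.continuousAt.tendsto
      rw [hF0] at this
      exact this.mono_left nhdsWithin_le_nhds
    have h1 : (fun x : ℂ => Complex.exp x - 1) =O[𝓝 0] (fun x => x) := by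
      have := (Complex.hasDerivAt_exp 0).isBigO_sub
      simpa using this
    have h2 := (h1.comp_tendsto hF00).trans hFO
    have h3 := h2.const_mul_left α
    refine h3.congr' ?_ EventuallyEq.rfl
    filter_upwards [hWne.filter_mono nhdsWithin_le_nhds, hUne.filter_mono nhdsWithin_le_nhds]
      with w hw1 hw2
    have hfw : f w ≠ 0 := div_ne_zero hw2 hw1
    show α * (Complex.exp (Complex.log (f w / α)) - 1) = f w - α
    rw [Complex.exp_log (div_ne_zero hfw hα0), mul_sub, mul_div_cancel₀ _ hα0, mul_one]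
  -- the difference is bounded
  set T := U - C α * W with hT
  have hTO : (fun z => T.eval z) =O[cobounded ℂ] (fun _ => (1 : ℝ)) := by
    have h1 := hfO.comp_tendsto (tendsto_inv₀_cobounded' (α := ℂ))
    have h2 : (fun z : ℂ => W.reverse.eval z⁻¹ * z ^ m) =O[cobounded ℂ] (fun z : ℂ => ‖z‖ ^ m) := by
      have h3 : (fun z : ℂ => W.reverse.eval z⁻¹) =O[cobounded ℂ] (fun _ => (1 : ℝ)) :=
        ((W.reverse.continuous.tendsto 0).comp (tendsto_inv₀_cobounded (α := ℂ))).isBigO_one ℝ
      have h4 : (fun z : ℂ => z ^ m) =O[cobounded ℂ] (fun z : ℂ => ‖z‖ ^ m) := by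
        refine IsBigO.of_bound 1 ?_
        filter_upwards with z
        simp
      simpa using h3.mul h4
    have h5 := h2.mul h1
    have hne1 : ∀ᶠ z in cobounded ℂ, W.reverse.eval z⁻¹ ≠ 0 := tendsto_inv₀_cobounded.eventually hWne
    refine (h5.congr' ?_ ?_)
    · filter_upwards [ne_zero_cob, hne1] with z hz hz1
      have e1 := reverse_eval (Q := U) hz
      have e2 := reverse_eval (Q := W) hz
      rw [hU] at e1
      rw [hW] at e2
      simp only [Function.comp_apply, hf, hT, eval_sub, eval_mul, eval_C]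
      rw [← e1, ← e2]
      have e3 : U.reverse.eval z⁻¹ / W.reverse.eval z⁻¹ * W.reverse.eval z⁻¹ = U.reverse.eval z⁻¹ :=
        div_mul_cancel₀ _ hz1
      linear_combination z ^ m * e3
    · filter_upwards [ne_zero_cob] with z hz
      simp only [Function.comp_apply]
      rw [norm_inv, ← mul_pow, mul_inv_cancel₀ (norm_ne_zero_iff.2 hz), one_pow]
  have hTdeg : T.natDegree = 0 := by
    by_contra hcon
    have h1 := (tendsto_norm_cobounded_atTop.comp (tendsto_poly (by omega : 1 ≤ T.natDegree)))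
    obtain ⟨K, hK⟩ := hTO.bound
    have h2 := h1.eventually_gt_atTop K
    obtain ⟨z, hz1, hz2⟩ := (hK.and h2).exists
    simp only [Function.comp_apply] at hz2
    simp at hz1
    linarith
  refine ⟨α, T.coeff 0, hα0, hκ, ?_⟩
  have := eq_C_of_natDegree_eq_zero hTdeg
  rw [← this, hT]
  ring

end Pool.Agent.Helper60.PG
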