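import Mathlib
import Pool.Agent.Helper60.RF.PG2

/-!
Common Green function of a right reversible semigroup of polynomials.
-/

open Filter Topology Asymptotics Bornology InnerProductSpace Polynomial
open scoped Real

namespace Pool.Agent.Helper60.PG

lemma inv_poly_isBigO {Q : ℂ[X]} {N : ℕ} (h1 : 1 ≤ Q.natDegree) (hN : N ≤ Q.natDegree) :
    (fun z => ‖Q.eval z‖⁻¹) =O[cobounded ℂ] (fun z => ‖z‖⁻¹ ^ N) := by
  have hQ : Q ≠ 0 := by rintro rfl; simp at h1
  have hlead : Q.reverse.eval 0 = Q.leadingCoeff := by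
    rw [← coeff_zero_eq_eval_zero, coeff_zero_reverse]
  have hl0 : Q.leadingCoeff ≠ 0 := leadingCoeff_ne_zero.2 hQ
  have h3 : Tendsto (fun z : ℂ => ‖Q.reverse.eval z⁻¹‖⁻¹) (cobounded ℂ) (𝓝 ‖Q.leadingCoeff‖⁻¹) := by
    have : Tendsto (fun z : ℂ => Q.reverse.eval z⁻¹) (cobounded ℂ) (𝓝 (Q.reverse.eval 0)) :=
      (Q.reverse.continuous.tendsto 0).comp tendsto_inv₀_cobounded
    rw [hlead] at this
    exact this.norm.inv₀ (norm_ne_zero_iff.2 hl0)
  have h4 := h3.isBigO_one ℝ
  have h5 : (fun z : ℂ => ‖z‖⁻¹ ^ Q.natDegree) =O[cobounded ℂ] (fun z => ‖z‖⁻¹ ^ N) := by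
    refine IsBigO.of_bound 1 ?_
    filter_upwards [tendsto_norm_cobounded_atTop.eventually_ge_atTop 1] with z hz
    rw [one_mul, norm_pow, norm_pow, norm_inv, norm_norm]
    exact pow_le_pow_of_le_one (by positivity) (inv_le_one_of_one_le₀ hz) hN
  have h6 := h4.mul h5
  simp only [one_mul] at h6
  refine h6.congr' ?_ EventuallyEq.rfl
  filter_upwards [ne_zero_cob] with z hz
  rw [← reverse_eval (Q := Q) hz, norm_mul, norm_pow, mul_inv, inv_pow]

lemma gr_tendsto {P : ℂ[X]} (hP : 2 ≤ P.natDegree) : Tendsto (gr P) (cobounded ℂ) atTop := by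
  obtain ⟨c, hc⟩ := gr_inf hP
  have h1 : Tendsto (fun z => gr P z - Real.log ‖z‖ - c) (cobounded ℂ) (𝓝 0) :=
    hc.trans_tendsto tendsto_inv_norm
  have h2 : Tendsto (fun z : ℂ => Real.log ‖z‖) (cobounded ℂ) atTop :=
    Real.tendsto_log_atTop.comp tendsto_norm_cobounded_atTop
  have h3 := (h2.atTop_add h1).atTop_add (tendsto_const_nhds (x := c))
  refine h3.congr ?_
  intro z; ring

lemma natDegree_iter (A : ℂ[X]) (n : ℕ) : (A.comp^[n] X).natDegree = A.natDegree ^ n := by
  rw [natDegree_iterate_comp, natDegree_X, mul_one]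

lemma key_one {A : ℂ[X]} (hA : 2 ≤ A.natDegree) {c : ℝ}
    (hc : (fun z => gr A z - Real.log ‖z‖ - c) =O[cobounded ℂ] (fun z => ‖z‖⁻¹))
    {n N : ℕ} (hN : N ≤ A.natDegree ^ n) {U : ℂ[X]} (hU : 1 ≤ U.natDegree) :
    (fun z => (U.comp (A.comp^[n] X)).natDegree * gr A z -
      Real.log ‖(U.comp (A.comp^[n] X)).eval z‖ - (U.natDegree * c - Real.log ‖U.leadingCoeff‖))
      =O[cobounded ℂ] (fun z => ‖z‖⁻¹ ^ N) := by
  have hU0 : U ≠ 0 := by rintro rfl; simp at hU
  have hdeg := natDegree_iter A n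
  have h1 : 1 ≤ (A.comp^[n] X).natDegree := by
    rw [hdeg]; exact Nat.one_le_pow _ _ (by omega)
  have ht := tendsto_poly h1
  have e1 := (hc.comp_tendsto ht).const_mul_left (U.natDegree : ℝ)
  have e2 := (log_poly hU0).comp_tendsto ht
  have e3 := (e1.sub e2).trans (inv_poly_isBigO h1 (N := N) (by rw [hdeg]; exact hN))
  refine e3.congr' ?_ EventuallyEq.rfl
  filter_upwards with z
  simp only [Function.comp_apply]
  have h2 : (A.comp^[n] X).eval z = (fun x => A.eval x)^[n] z := by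
    rw [iterate_comp_eval, eval_X]
  have h3 : gr A ((A.comp^[n] X).eval z) = (A.natDegree : ℝ) ^ n * gr A z := by
    rw [h2, gr_iter hA]
  rw [h3, eval_comp, natDegree_comp, hdeg]
  push_cast
  ring

/-- Green functions agree near infinity up to a constant. -/
lemma gr_eq_near {A B : ℂ[X]} (hA : 2 ≤ A.natDegree) (hB : 2 ≤ B.natDegree)
    (h : ∀ n : ℕ, 1 ≤ n → ∃ U V : ℂ[X], 1 ≤ U.natDegree ∧ 1 ≤ V.natDegree ∧
      U.comp (A.comp^[n] X) = V.comp (B.comp^[n] X)) :
    ∃ κ, ∀ᶠ z in cobounded ℂ, gr A z = gr B z + κ := by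
  obtain ⟨cA, hcA⟩ := gr_inf hA
  obtain ⟨cB, hcB⟩ := gr_inf hB
  have hlim : Tendsto (fun z => gr A z - gr B z) (cobounded ℂ) (𝓝 (cA - cB)) := by
    have h1 : Tendsto (fun z => gr A z - Real.log ‖z‖ - cA) (cobounded ℂ) (𝓝 0) :=
      hcA.trans_tendsto tendsto_inv_norm
    have h2 : Tendsto (fun z => gr B z - Real.log ‖z‖ - cB) (cobounded ℂ) (𝓝 0) :=
      hcB.trans_tendsto tendsto_inv_norm
    have h3 := (h1.sub h2).add_const (cA - cB)
    simp only [sub_zero, zero_add] at h3
    refine h3.congr ?_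
    intro z; ring
  refine ⟨cA - cB, ?_⟩
  have hharm : ∀ᶠ z in cobounded ℂ, HarmonicAt (fun z => gr A z - gr B z) z := by
    filter_upwards [(gr_tendsto hA).eventually_gt_atTop 0, (gr_tendsto hB).eventually_gt_atTop 0]
      with z h1 h2
    exact (gr_harm hA h1.ne').sub (gr_harm hB h2.ne')
  have hfl : ∀ N : ℕ, (fun z => gr A z - gr B z - (cA - cB)) =O[cobounded ℂ]
      (fun z => ‖z‖⁻¹ ^ N) := by
    intro N
    obtain ⟨U, V, hU, hV, hUV⟩ := h (N + 1) (by omega)
    have hpow : ∀ a : ℕ, 2 ≤ a → N + 1 ≤ a ^ (N + 1) := fun a ha =>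
      (Nat.lt_pow_self (by omega : 1 < a)).le
    have k1 := key_one hA hcA (hpow _ hA) hU
    have k2 := key_one hB hcB (hpow _ hB) hV
    rw [hUV] at k1
    have k3 := k1.sub k2
    set D : ℝ := ((V.comp (B.comp^[N + 1] X)).natDegree : ℝ) with hD
    have hD0 : D ≠ 0 := by
      rw [hD, natDegree_comp, natDegree_iter]
      have : 1 ≤ B.natDegree ^ (N + 1) := Nat.one_le_pow _ _ (by omega)
      have : 1 ≤ V.natDegree * B.natDegree ^ (N + 1) := Nat.one_le_iff_ne_zero.2 (by positivity)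
      exact_mod_cast (by omega : V.natDegree * B.natDegree ^ (N + 1) ≠ 0)
    set e : ℝ := (U.natDegree * cA - Real.log ‖U.leadingCoeff‖) -
      (V.natDegree * cB - Real.log ‖V.leadingCoeff‖) with he
    have k4 : (fun z => gr A z - gr B z - e / D) =O[cobounded ℂ] (fun z => ‖z‖⁻¹ ^ (N + 1)) := by
      refine (k3.const_mul_left D⁻¹).congr' ?_ EventuallyEq.rfl
      filter_upwards with z
      rw [he]
      field_simp
      ring
    have k5 : e / D = cA - cB := by
      have h1 : Tendsto (fun z => gr A z - gr B z - e / D) (cobounded ℂ) (𝓝 0) := by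
        refine k4.trans_tendsto ?_
        have := tendsto_inv_norm.pow (N + 1)
        rwa [zero_pow (by omega)] at this
      have h2 := h1.add_const (e / D)
      simp only [sub_add_cancel, zero_add] at h2
      exact tendsto_nhds_unique h2 hlim
    rw [k5] at k4
    refine k4.trans ?_
    refine IsBigO.of_bound 1 ?_
    filter_upwards [tendsto_norm_cobounded_atTop.eventually_ge_atTop 1] with z hz
    rw [one_mul, norm_pow, norm_pow, norm_inv, norm_norm]
    exact pow_le_pow_of_le_one (by positivity) (inv_le_one_of_one_le₀ hz) (Nat.le_succ N)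
  filter_upwards [flat_inf hharm hfl] with z hz
  linarith

lemma exists_norm_bound (Q : ℂ[X]) (R : ℝ) : ∃ M : ℝ, ∀ z : ℂ, ‖z‖ ≤ R → ‖Q.eval z‖ ≤ M := by
  obtain ⟨M, hM⟩ := (isCompact_closedBall (0 : ℂ) R).exists_bound_of_continuousOn
    Q.continuous.continuousOn
  exact ⟨M, fun z hz => hM z (by simpa using hz)⟩

lemma eventually_cob {p : ℂ → Prop} : (∀ᶠ z in cobounded ℂ, p z) ↔ ∃ R : ℝ, ∀ z : ℂ, R < ‖z‖ → p z := by
  rw [← comap_norm_atTop, eventually_comap, eventually_atTop]
  constructor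
  · rintro ⟨R, hR⟩
    exact ⟨R, fun z hz => hR _ hz.le z rfl⟩
  · rintro ⟨R, hR⟩
    refine ⟨R + 1, fun x hx z hz => hR z ?_⟩
    rw [hz]; linarith

/-- Two polynomials of the same degree which agree under `gr P` near infinity. -/
lemma affine_of_gr {P U W : ℂ[X]} (hP : 2 ≤ P.natDegree) {m : ℕ} (hm : 1 ≤ m)
    (hU : U.natDegree = m) (hW : W.natDegree = m) {κ : ℝ}
    (h : ∀ᶠ z in cobounded ℂ, gr P (U.eval z) = gr P (W.eval z) + κ) :
    ∃ α β : ℂ, α ≠ 0 ∧ Real.log ‖α‖ = κ ∧ U = C α * W + C β ∧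
      ∀ᶠ w in cobounded ℂ, gr P (α * w + β) = gr P w + κ := by
  obtain ⟨c, hc⟩ := gr_inf hP
  have hU1 : 1 ≤ U.natDegree := by omega
  have hW1 : 1 ≤ W.natDegree := by omega
  have e1 := (hc.comp_tendsto (tendsto_poly hU1)).trans (inv_poly_isBigO hU1 (N := m) hU.ge)
  have e2 := (hc.comp_tendsto (tendsto_poly hW1)).trans (inv_poly_isBigO hW1 (N := m) hW.ge)
  have e3 : (fun z => Real.log ‖U.eval z‖ - Real.log ‖W.eval z‖ - κ) =O[cobounded ℂ]
      (fun z => ‖z‖⁻¹ ^ m) := by
    refine (e2.sub e1).congr' ?_ EventuallyEq.rfl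
    filter_upwards [h] with z hz
    simp only [Function.comp_apply]
    rw [hz]
    ring
  obtain ⟨α, β, hα, hlog, hUW⟩ := affine_of_log hm hU hW e3
  refine ⟨α, β, hα, hlog, hUW, ?_⟩
  obtain ⟨R, hR⟩ := eventually_cob.1 h
  obtain ⟨M, hM⟩ := exists_norm_bound W R
  refine eventually_cob.2 ⟨M, fun w hw => ?_⟩
  obtain ⟨z, hz⟩ : ∃ z, W.eval z = w := by
    have : (W - C w).degree ≠ 0 := by
      intro h0
      have := natDegree_eq_zero_iff_degree_le_zero.2 h0.le
      rw [natDegree_sub_C] at this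
      omega
    obtain ⟨z, hz⟩ := IsAlgClosed.exists_root (W - C w) this
    refine ⟨z, ?_⟩
    have : (W - C w).eval z = 0 := hz
    rw [eval_sub, eval_C, sub_eq_zero] at this
    exact this
  have hzR : R < ‖z‖ := by
    by_contra hcon
    have := hM z (not_lt.1 hcon)
    rw [hz] at this
    linarith
  have := hR z hzR
  rw [hUW, eval_add, eval_mul, eval_C, eval_C, hz] at this
  exact this

lemma trans_zero {P : ℂ[X]} (hP : 2 ≤ P.natDegree) {β : ℂ}
    (h : ∀ᶠ w in cobounded ℂ, gr P (w + β) = gr P w) : β = 0 := by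
  by_contra hβ
  obtain ⟨R, hR⟩ := eventually_cob.1 h
  have hβn : 0 < ‖β‖ := norm_pos_iff.2 hβ
  set t : ℝ := (|R| + 1) / ‖β‖ with ht
  have ht0 : 0 < t := by positivity
  set w : ℂ := Complex.I * t * β with hw
  have hnorm : ∀ n : ℕ, |R| + 1 ≤ ‖w + n * β‖ := by
    intro n
    have e : w + n * β = ((n : ℂ) + t * Complex.I) * β := by rw [hw]; ring
    rw [e, norm_mul]
    have h1 : t ≤ ‖(n : ℂ) + t * Complex.I‖ := by
      have h2 := Complex.abs_im_le_norm ((n : ℂ) + t * Complex.I)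
      have h3 : ((n : ℂ) + t * Complex.I).im = t := by simp
      rw [h3, abs_of_pos ht0] at h2
      exact h2
    calc |R| + 1 = t * ‖β‖ := by rw [ht]; field_simp
      _ ≤ _ := by gcongr
  have hconst : ∀ n : ℕ, gr P (w + n * β) = gr P w := by
    intro n
    induction n with
    | zero => simp
    | succ n ih =>
      have h1 := hR (w + n * β) (by have := hnorm n; have := le_abs_self R; linarith)
      rw [ih] at h1
      rw [← h1]
      congr 1
      push_cast
      ring
  have htend : Tendsto (fun n : ℕ => w + n * β) atTop (cobounded ℂ) := by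
    rw [← tendsto_norm_atTop_iff_cobounded]
    have h1 : Tendsto (fun n : ℕ => (n : ℝ) * ‖β‖) atTop atTop :=
      tendsto_natCast_atTop_atTop.atTop_mul_const hβn
    refine tendsto_atTop_mono ?_ h1
    intro n
    have e : w + n * β = ((n : ℂ) + t * Complex.I) * β := by rw [hw]; ring
    rw [e, norm_mul]
    have h1 : (n : ℝ) ≤ ‖(n : ℂ) + t * Complex.I‖ := by
      have h2 := Complex.abs_re_le_norm ((n : ℂ) + t * Complex.I)
      have h3 : ((n : ℂ) + t * Complex.I).re = n := by simp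
      rw [h3, Nat.abs_cast] at h2
      exact h2
    gcongr
  have h1 := ((gr_tendsto hP).comp htend).eventually_gt_atTop (gr P w)
  obtain ⟨n, hn⟩ := h1.exists
  simp only [Function.comp_apply] at hn
  rw [hconst n] at hn
  exact lt_irrefl _ hn

lemma real_analytic_zero {d : ℂ → ℝ} {z0 : ℂ} {r : ℝ} (hd : HarmonicOnNhd d (Metric.ball z0 r))
    {z' : ℂ} (hz' : z' ∈ Metric.ball z0 r) (h0 : ∀ᶠ z in 𝓝 z', d z = 0) :
    ∀ z ∈ Metric.ball z0 r, d z = 0 := by
  have h1 : AnalyticOnNhd ℝ d (Metric.ball z0 r) := fun z hz => _root_.HarmonicAt.analyticAt (hd z hz)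
  have h2 := h1.eqOn_zero_of_preconnected_of_eventuallyEq_zero
    (convex_ball z0 r).isPreconnected hz' h0
  intro z hz
  exact h2 hz

lemma gr_eq_of_near_aux {P V : ℂ[X]} (hP : 2 ≤ P.natDegree) (hV : 2 ≤ V.natDegree)
    (h : ∀ᶠ z in cobounded ℂ, gr V z = gr P z) : ∀ z, gr P z ≠ 0 → gr V z = gr P z := by
  intro z1 hz1
  by_contra hne
  set W : Set ℂ := interior {z | gr V z = gr P z} with hW
  have hWo : IsOpen W := isOpen_interior
  have hWs : W ⊆ {z | gr V z = gr P z} := interior_subset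
  obtain ⟨R, hR⟩ := eventually_cob.1 h
  have hWR : ∀ z : ℂ, R < ‖z‖ → z ∈ W := by
    intro z hz
    rw [hW, mem_interior]
    refine ⟨{z | R < ‖z‖}, fun x hx => hR x hx, ?_, hz⟩
    exact isOpen_lt continuous_const continuous_norm
  have hFc : IsCompact Wᶜ := by
    refine (isCompact_closedBall (0 : ℂ) R).of_isClosed_subset hWo.isClosed_compl ?_
    intro z hz
    rw [mem_closedBall_zero_iff]
    by_contra hcon
    exact hz (hWR z (not_le.1 hcon))
  have hz1F : z1 ∈ Wᶜ := fun hh => hne (hWs hh)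
  obtain ⟨z2, hz2, hmax⟩ := hFc.exists_isMaxOn ⟨z1, hz1F⟩ (gr_cont hP).continuousOn
  have hpos1 : 0 < gr P z1 := lt_of_le_of_ne (gr_nonneg hP z1) (Ne.symm hz1)
  have hpos2 : 0 < gr P z2 := lt_of_lt_of_le hpos1 (hmax hz1F)
  have hF'c : IsCompact (Wᶜ ∩ {z | gr P z = gr P z2}) :=
    hFc.inter_right (isClosed_eq (gr_cont hP) continuous_const)
  obtain ⟨z0, hz0, hmax0⟩ := hF'c.exists_isMaxOn ⟨z2, hz2, rfl⟩ Complex.continuous_re.continuousOn
  have hz0e : gr P z0 = gr P z2 := hz0.2
  have hpos0 : 0 < gr P z0 := by rw [hz0e]; exact hpos2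
  have hPh : HarmonicAt (gr P) z0 := gr_harm hP hpos0.ne'
  -- `z0` is in the closure of `W`
  have hcl : z0 ∈ closure W := by
    by_contra hcon
    obtain ⟨r, hr, hball⟩ := Metric.isOpen_iff.1 isClosed_closure.isOpen_compl z0 hcon
    have hballF : ∀ z ∈ Metric.ball z0 r, z ∈ Wᶜ := fun z hz hzW => hball hz (subset_closure hzW)
    obtain ⟨ε, hε, hsub⟩ := Metric.isOpen_iff.mp (isOpen_setOfPred_harmonicAt (gr P)) z0 hPh
    obtain ⟨G, hG, hGu⟩ := HarmonicOnNhd.exists_analyticOnNhd_ball_re_eq (f := gr P) (z := z0) (R := ε)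
      (fun y hy => hsub hy)
    have hGre : ∀ᶠ z in 𝓝 z0, (G z).re = gr P z := by
      filter_upwards [Metric.ball_mem_nhds z0 hε] with z hz using hGu hz
    have hlm : IsLocalMax (norm ∘ fun z => Complex.exp (G z)) z0 := by
      filter_upwards [hGre, Metric.ball_mem_nhds z0 hr] with z hz1 hz2
      simp only [Function.comp_apply, Complex.norm_exp]
      rw [hz1, hGre.self_of_nhds, hz0e]
      exact Real.exp_le_exp.2 (hmax (hballF z hz2))
    have hdiff : ∀ᶠ z in 𝓝 z0, DifferentiableAt ℂ (fun z => Complex.exp (G z)) z := by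
      filter_upwards [Metric.ball_mem_nhds z0 hε] with z hz
      exact (hG z hz).differentiableAt.cexp
    have hconst := Complex.eventually_eq_of_isLocalMax_norm hdiff hlm
    have hconst2 : ∀ᶠ z in 𝓝 z0, gr P z = gr P z2 := by
      filter_upwards [hconst, hGre] with z h1 h2
      have h3 := congrArg norm h1
      rw [Complex.norm_exp, Complex.norm_exp] at h3
      have h4 := Real.exp_injective h3
      rw [← h2, h4, hGre.self_of_nhds, hz0e]
    have hall := hconst2.and (Metric.ball_mem_nhds z0 hr)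
    obtain ⟨δ, hδ, hδs⟩ := Metric.eventually_nhds_iff_ball.1 hall
    have hz3 : z0 + (δ / 2 : ℝ) ∈ Metric.ball z0 δ := by
      rw [Metric.mem_ball, dist_eq_norm, add_sub_cancel_left, Complex.norm_real, Real.norm_eq_abs,
        abs_of_pos (by linarith)]
      linarith
    have h5 := hδs _ hz3
    have h6 : z0 + (δ / 2 : ℝ) ∈ Wᶜ ∩ {z | gr P z = gr P z2} := ⟨hballF _ h5.2, h5.1⟩
    have h7 := hmax0 h6
    simp only [Set.mem_ofPred_eq, Complex.add_re, Complex.ofReal_re] at h7
    linarith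
  -- hence `gr V z0 = gr P z0`
  have hVz0 : gr V z0 = gr P z0 := by
    have hclosed : IsClosed {z | gr V z = gr P z} := isClosed_eq (gr_cont hV) (gr_cont hP)
    exact hclosed.closure_subset_iff.2 hWs hcl
  have hVh : HarmonicAt (gr V) z0 := gr_harm hV (by rw [hVz0]; exact hpos0.ne')
  have hdh : HarmonicAt (fun z => gr V z - gr P z) z0 := hVh.sub hPh
  obtain ⟨r, hr, hball⟩ := Metric.isOpen_iff.mp
    (isOpen_setOfPred_harmonicAt (fun z => gr V z - gr P z)) z0 hdh
  obtain ⟨z', hz'W, hz'b⟩ := Metric.mem_closure_iff.1 hcl r hr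
  rw [dist_comm] at hz'b
  have hzero : ∀ᶠ z in 𝓝 z', gr V z - gr P z = 0 := by
    filter_upwards [hWo.mem_nhds hz'W] with z hz
    exact sub_eq_zero.2 (hWs hz)
  have hall := real_analytic_zero (fun y hy => hball hy) hz'b hzero
  apply hz0.1
  rw [hW, mem_interior]
  refine ⟨Metric.ball z0 r, fun z hz => ?_, Metric.isOpen_ball, Metric.mem_ball_self hr⟩
  exact sub_eq_zero.1 (hall z hz)

lemma gr_eq_of_near {P V : ℂ[X]} (hP : 2 ≤ P.natDegree) (hV : 2 ≤ V.natDegree)
    (h : ∀ᶠ z in cobounded ℂ, gr V z = gr P z) (z : ℂ) : gr V z = gr P z := by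
  by_cases h1 : gr P z = 0
  · by_cases h2 : gr V z = 0
    · rw [h1, h2]
    · exact (gr_eq_of_near_aux hV hP (by filter_upwards [h] with z hz using hz.symm) z h2).symm
  · exact gr_eq_of_near_aux hP hV h z h1

/-- the rotation part -/
lemma kv_zero {P V : ℂ[X]} (hP : 2 ≤ P.natDegree) (hV : 2 ≤ V.natDegree)
    (hP1 : ¬ ∃ a c : ℂ, P = C c * (X - C a) ^ P.natDegree + C a) {cV : ℝ}
    (h : ∀ᶠ z in cobounded ℂ, gr V z = gr P z + cV) : cV = 0 := by
  have hP0 : 1 ≤ P.natDegree := by omega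
  have hV0 : 1 ≤ V.natDegree := by omega
  have hPne : P ≠ 0 := by rintro rfl; simp at hP
  set kV : ℝ := ((V.natDegree : ℝ) - 1) * cV with hkV
  have h1 : ∀ᶠ z in cobounded ℂ, gr P (V.eval z) = V.natDegree * gr P z + kV := by
    filter_upwards [h, (tendsto_poly hV0).eventually h] with z hz1 hz2
    have := gr_fe hV z
    rw [hz1, hz2] at this
    rw [hkV]
    linarith
  have h2 : ∀ᶠ z in cobounded ℂ, gr P ((P.comp V).eval z) = gr P ((V.comp P).eval z) +
      (P.natDegree - 1) * kV := by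
    filter_upwards [h1, (tendsto_poly hP0).eventually h1] with z hz1 hz2
    rw [eval_comp, eval_comp, gr_fe hP, hz1, hz2, gr_fe hP]
    ring
  obtain ⟨α, β, hα, hlog, -, hl⟩ := affine_of_gr hP (m := P.natDegree * V.natDegree)
    (Nat.one_le_iff_ne_zero.2 (by positivity)) natDegree_comp (by rw [natDegree_comp, mul_comm]) h2
  by_contra hcV
  have hp1 : (1 : ℝ) < P.natDegree := by exact_mod_cast (by omega : 1 < P.natDegree)
  have hv1 : (1 : ℝ) < V.natDegree := by exact_mod_cast (by omega : 1 < V.natDegree)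
  have hlog0 : Real.log ‖α‖ ≠ 0 := by
    rw [hlog, hkV]
    exact mul_ne_zero (by linarith) (mul_ne_zero (by linarith) hcV)
  have hαn : ‖α‖ ≠ 1 := by
    intro h0; rw [h0] at hlog0; simp at hlog0
  have hαpos : 0 < ‖α‖ := norm_pos_iff.2 hα
  have hpowne : ∀ i j : ℕ, α ^ i = α ^ j → i = j := by
    intro i j hij
    have := congrArg norm hij
    rw [norm_pow, norm_pow] at this
    exact pow_right_injective₀ hαpos hαn this
  have hα1 : 1 - α ≠ 0 := by
    intro h0
    apply hαn
    rw [← sub_eq_zero.1 h0]; simp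
  set a : ℂ := β / (1 - α) with ha
  have haβ : β = a * (1 - α) := by rw [ha]; field_simp
  rw [← hlog] at hl
  have hl' : ∀ᶠ w in cobounded ℂ, gr P (α * (w - a) + a) = gr P w + Real.log ‖α‖ := by
    filter_upwards [hl] with w hw
    rw [← hw, haβ]
    congr 1
    ring
  have hlk : ∀ k : ℕ, ∀ᶠ w in cobounded ℂ, gr P (α ^ k * (w - a) + a) = gr P w + k * Real.log ‖α‖ := by
    intro k
    induction k with
    | zero => filter_upwards with w; simp
    | succ k ih =>
      have ht : Tendsto (fun w => α ^ k * (w - a) + a) (cobounded ℂ) (cobounded ℂ) := by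
        have := tendsto_poly (Q := C (α ^ k) * (X - C a) + C a) (by
          rw [natDegree_add_C, natDegree_C_mul (pow_ne_zero k hα), natDegree_X_sub_C])
        refine this.congr ?_
        intro w
        simp
      filter_upwards [ih, ht.eventually hl'] with w h1 h2
      have e : α ^ (k + 1) * (w - a) + a = α * (α ^ k * (w - a) + a - a) + a := by ring
      rw [e, h2, h1]
      push_cast
      ring
  set lin : ℂ[X] := C α * (X - C a) + C a with hlin
  have hlindeg : lin.natDegree = 1 := by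
    rw [hlin, natDegree_add_C, natDegree_C_mul hα, natDegree_X_sub_C]
  have hlineval : ∀ z, lin.eval z = α * (z - a) + a := by intro z; simp [hlin]
  set U : ℂ[X] := P.comp lin with hU
  set W : ℂ[X] := C (α ^ P.natDegree) * (P - C a) + C a with hW
  have hUdeg : U.natDegree = P.natDegree := by rw [hU, natDegree_comp, hlindeg, mul_one]
  have hWdeg : W.natDegree = P.natDegree := by
    rw [hW, natDegree_add_C, natDegree_C_mul (pow_ne_zero _ hα), natDegree_sub_C]
  have h3 : ∀ᶠ z in cobounded ℂ, gr P (U.eval z) = gr P (W.eval z) + 0 := by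
    filter_upwards [hl', (tendsto_poly hP0).eventually (hlk P.natDegree)] with z h4 h5
    rw [hU, eval_comp, gr_fe hP, hlineval, h4, hW]
    simp only [eval_add, eval_mul, eval_C, eval_sub]
    rw [h5, gr_fe hP]
    ring
  obtain ⟨α', β', hα', -, hUW, hl2⟩ := affine_of_gr hP hP0 hUdeg hWdeg h3
  have hlinlead : lin.leadingCoeff = α := by
    rw [leadingCoeff, hlindeg, hlin]
    simp [coeff_X]
  have hlU : U.leadingCoeff = P.leadingCoeff * α ^ P.natDegree := by
    rw [hU, leadingCoeff_comp (by rw [hlindeg]; norm_num), hlinlead]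
  have hlW : W.leadingCoeff = P.leadingCoeff * α ^ P.natDegree := by
    rw [leadingCoeff, hWdeg, hW]
    simp only [coeff_add, coeff_C_mul, coeff_sub, coeff_C]
    rw [if_neg (by omega)]
    simp only [sub_zero, add_zero, leadingCoeff]
    ring
  have hα'1 : α' = 1 := by
    have e1 : U.coeff P.natDegree = α' * W.coeff P.natDegree := by
      rw [hUW, coeff_add, coeff_C_mul, coeff_C, if_neg (by omega), add_zero]
    have e2 : U.coeff P.natDegree = P.leadingCoeff * α ^ P.natDegree := by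
      rw [← hlU, leadingCoeff, hUdeg]
    have e3 : W.coeff P.natDegree = P.leadingCoeff * α ^ P.natDegree := by
      rw [← hlW, leadingCoeff, hWdeg]
    rw [e2, e3] at e1
    have hne : P.leadingCoeff * α ^ P.natDegree ≠ 0 :=
      mul_ne_zero (leadingCoeff_ne_zero.2 hPne) (pow_ne_zero _ hα)
    have := mul_right_cancel₀ hne (by rw [one_mul]; exact e1 : (1 : ℂ) * _ = α' * _)
    exact this.symm
  have hβ' : β' = 0 := by
    apply trans_zero hP
    filter_upwards [hl2] with w hw
    rw [hα'1, one_mul, add_zero] at hw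
    exact hw
  rw [hα'1, hβ'] at hUW
  simp only [map_one, one_mul, map_zero, add_zero] at hUW
  -- translate to the centre
  set Q : ℂ[X] := P.comp (X + C a) with hQ
  have hQa : Q.comp (C α * X) = C (α ^ P.natDegree) * (Q - C a) + C a := by
    have e1 : U.comp (X + C a) = Q.comp (C α * X) := by
      rw [hU, hQ, comp_assoc, comp_assoc]
      congr 1
      rw [hlin]
      simp only [add_comp, mul_comp, C_comp, sub_comp, X_comp]
      ring
    have e2 : W.comp (X + C a) = C (α ^ P.natDegree) * (Q - C a) + C a := by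
      rw [hW, hQ]
      simp only [add_comp, mul_comp, C_comp, sub_comp]
    rw [← e1, hUW, e2]
  have hcoef : ∀ j : ℕ, Q.coeff j * α ^ j = α ^ P.natDegree * (Q - C a).coeff j + (C a).coeff j := by
    intro j
    have := congrArg (fun p => coeff p j) hQa
    simp only [comp_C_mul_X_coeff, coeff_add, coeff_C_mul] at this
    exact this
  have hQc : ∀ j : ℕ, j ≠ 0 → j ≠ P.natDegree → Q.coeff j = 0 := by
    intro j hj0 hjp
    have h4 := hcoef j
    rw [coeff_sub, coeff_C, if_neg hj0, sub_zero, add_zero] at h4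
    have h5 : Q.coeff j * (α ^ j - α ^ P.natDegree) = 0 := by linear_combination h4
    rcases mul_eq_zero.1 h5 with h6 | h6
    · exact h6
    · exact absurd (hpowne _ _ (sub_eq_zero.1 h6)) hjp
  have hQ0 : Q.coeff 0 = a := by
    have h4 := hcoef 0
    rw [coeff_sub, coeff_C, if_pos rfl, pow_zero, mul_one] at h4
    have h5 : (Q.coeff 0 - a) * (1 - α ^ P.natDegree) = 0 := by linear_combination h4
    rcases mul_eq_zero.1 h5 with h6 | h6
    · exact sub_eq_zero.1 h6
    · have := hpowne 0 P.natDegree (by rw [pow_zero]; exact sub_eq_zero.1 h6)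
      omega
  have hQe : Q = C (Q.coeff P.natDegree) * X ^ P.natDegree + C a := by
    ext j
    rw [coeff_add, coeff_C_mul, coeff_X_pow, coeff_C]
    by_cases hj0 : j = 0
    · subst hj0
      rw [if_neg (by omega), if_pos rfl, hQ0]
      simp
    · by_cases hjp : j = P.natDegree
      · rw [if_pos hjp, if_neg hj0, hjp]
        simp
      · rw [if_neg hjp, if_neg hj0, hQc j hj0 hjp]
        simp
  apply hP1
  refine ⟨a, Q.coeff P.natDegree, ?_⟩
  have e1 : P = Q.comp (X - C a) := by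
    rw [hQ, comp_assoc]
    simp
  conv_lhs => rw [e1, hQe]
  simp

end Pool.Agent.Helper60.PG

namespace Pool.Agent.Helper65

open Pool.Agent.Helper60.PG

/-- Common Green function of a right reversible semigroup of polynomials. -/
theorem poly_common {S : Set (Polynomial ℂ)} (hdeg : ∀ V ∈ S, 2 ≤ V.natDegree)
    (hS : ∀ A ∈ S, ∀ B ∈ S, A.comp B ∈ S)
    (hrev : ∀ A ∈ S, ∀ B ∈ S, ∃ X ∈ S, ∃ Y ∈ S, X.comp A = Y.comp B)
    {P : Polynomial ℂ} (hP : P ∈ S)
    (hP1 : ¬ ∃ a c : ℂ, P = Polynomial.C c * (Polynomial.X - Polynomial.C a) ^ P.natDegree +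
      Polynomial.C a) :
    ∃ g : ℂ → ℝ, Continuous g ∧ (∀ z, 0 ≤ g z) ∧
      (∃ c : ℝ, Tendsto (fun z => g z - Real.log ‖z‖) (cocompact ℂ) (𝓝 c)) ∧
      (∀ z, g z ≠ 0 → HarmonicAt g z) ∧
      ∀ V ∈ S, ∀ z, g (V.eval z) = V.natDegree * g z := by
  have hiter : ∀ A ∈ S, ∀ n : ℕ, 1 ≤ n → A.comp^[n] X ∈ S := by
    intro A hA n hn
    induction n, hn using Nat.le_induction with
    | base => simpa using hA
    | succ n _ ih =>
      rw [Function.iterate_succ_apply']
      exact hS A hA _ ih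
  have hP2 := hdeg P hP
  have key : ∀ V ∈ S, ∀ z, gr V z = gr P z := by
    intro V hV
    have hV2 := hdeg V hV
    obtain ⟨κ, hκ⟩ := gr_eq_near hV2 hP2 (by
      intro n hn
      obtain ⟨U, hU, Y, hY, hUY⟩ := hrev _ (hiter V hV n hn) _ (hiter P hP n hn)
      exact ⟨U, Y, by have := hdeg U hU; omega, by have := hdeg Y hY; omega, hUY⟩)
    have h0 := kv_zero hP2 hV2 hP1 hκ
    rw [h0] at hκ
    simp only [add_zero] at hκ
    exact gr_eq_of_near hP2 hV2 hκ
  refine ⟨gr P, gr_cont hP2, gr_nonneg hP2, ?_, fun z hz => gr_harm hP2 hz, ?_⟩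
  · obtain ⟨c, hc⟩ := gr_inf hP2
    refine ⟨c, ?_⟩
    rw [← Metric.cobounded_eq_cocompact]
    have h1 : Tendsto (fun z => gr P z - Real.log ‖z‖ - c) (Bornology.cobounded ℂ) (𝓝 0) :=
      hc.trans_tendsto tendsto_inv_norm
    have h2 := h1.add_const c
    simpa using h2
  · intro V hV z
    rw [← key V hV, ← key V hV, gr_fe (hdeg V hV)]

end Pool.Agent.Helper65
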